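import Pool.Agent.GMD.Final
import Pool.Agent.DXA.Cpl

/-!
# GMD: the theorem for a graded domain finite over `K[z_0, …, z_n, θ]`

`S` is a graded domain over a field `K`, `z_0, …, z_n, θ` are of degree one, algebraically
independent, and `S` is finite over `K[z, θ]`.  For homogeneous ideals `J` such that `S / J` is
finite over `A = K[z_0, …, z_n]` we compare the `A`-linear functionals `S → A` killed by `J` with
the fractions `b` such that `J b ⊆ S`.
-/

set_option autoImplicit false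

open Polynomial Module

namespace Pool.Agent.GMD

/-! ### forms over a field -/

section mv

variable (K : Type*) [Field K] (n : ℕ)

/-- the coefficients of a form of degree `d` in `n + 1` variables -/
noncomputable def coefs (d : ℕ) : MvPolynomial.homogeneousSubmodule (Fin (n + 1)) K d →ₗ[K]
    ((Fin n → Fin (d + 1)) → K) where
  toFun p u := MvPolynomial.coeff (Finsupp.equivFunOnFinite.symm
    (Fin.snoc (α := fun _ => ℕ) (fun i => (u i : ℕ)) (d - ∑ i, (u i : ℕ))))
      (p : MvPolynomial (Fin (n + 1)) K)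
  map_add' := by
    intro p q
    funext u
    exact MvPolynomial.coeff_add _ _ _
  map_smul' := by
    intro c p
    funext u
    exact MvPolynomial.coeff_smul _ _ _

theorem coefs_injective (d : ℕ) : Function.Injective (coefs K n d) := by
  intro p q hpq
  apply Subtype.ext
  ext e
  by_contra hne
  have h1 : e.degree = d := by
    by_contra h
    apply hne
    have h2 : ∀ p : MvPolynomial.homogeneousSubmodule (Fin (n + 1)) K d,
        MvPolynomial.coeff e (p : MvPolynomial (Fin (n + 1)) K) = 0 := by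
      intro p
      by_contra h3
      have h4 := ((MvPolynomial.mem_homogeneousSubmodule _ _).1 p.2) h3
      apply h
      rw [Finsupp.degree_eq_weight_one]
      exact h4
    rw [h2, h2]
  have h2 : ∑ i, e i = d := by rw [← h1, Finsupp.degree_eq_sum]
  have h3 : ∀ i, e i < d + 1 := by
    intro i
    have := Finset.single_le_sum (f := fun i => e i) (fun i _ => Nat.zero_le _) (Finset.mem_univ i)
    omega
  have h4 := congrFun hpq (fun i => ⟨e i.castSucc, h3 _⟩)
  have h5 : Finsupp.equivFunOnFinite.symm (Fin.snoc (α := fun _ => ℕ)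
      (fun i : Fin n => e i.castSucc) (d - ∑ i : Fin n, e i.castSucc)) = e := by
    ext j
    rw [Finsupp.equivFunOnFinite_symm_apply_apply]
    refine Fin.lastCases ?_ (fun i => ?_) j
    · rw [Fin.snoc_last]
      rw [Fin.sum_univ_castSucc] at h2
      omega
    · rw [Fin.snoc_castSucc]
  apply hne
  have h6 : MvPolynomial.coeff (Finsupp.equivFunOnFinite.symm (Fin.snoc (α := fun _ => ℕ)
      (fun i : Fin n => e i.castSucc) (d - ∑ i : Fin n, e i.castSucc)))
        (p : MvPolynomial (Fin (n + 1)) K) =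
      MvPolynomial.coeff (Finsupp.equivFunOnFinite.symm (Fin.snoc (α := fun _ => ℕ)
      (fun i : Fin n => e i.castSucc) (d - ∑ i : Fin n, e i.castSucc)))
        (q : MvPolynomial (Fin (n + 1)) K) := h4
  rwa [h5] at h6

theorem mv_fd (d : ℤ) : FiniteDimensional K ((mvGr K (n + 1)).gr d) := by
  rcases lt_or_ge d 0 with hd | hd
  · have : (mvGr K (n + 1)).gr d = ⊥ := by
      rw [eq_bot_iff]
      intro x hx
      exact (mvGr K (n + 1)).neg hd hx
    rw [this]
    infer_instance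
  · lift d to ℕ using hd
    rw [mvGr_gr_coe]
    exact FiniteDimensional.of_injective _ (coefs_injective K n d)

theorem mv_bd : Bd (mvGr K (n + 1)) n := by
  intro d
  rcases lt_or_ge d 0 with hd | hd
  · have : (mvGr K (n + 1)).gr d = ⊥ := by
      rw [eq_bot_iff]
      intro x hx
      exact (mvGr K (n + 1)).neg hd hx
    rw [this, finrank_bot]
    exact Nat.zero_le _
  · lift d to ℕ using hd
    rw [mvGr_gr_coe, Int.toNat_natCast]
    have h1 := LinearMap.finrank_le_finrank_of_injective (coefs_injective K n d)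
    rw [finrank_pi] at h1
    simpa using h1

theorem mem_mvGr (d : ℤ) (p : MvPolynomial (Fin (n + 1)) K) : p ∈ (mvGr K (n + 1)).gr d ↔
    ∀ e, MvPolynomial.coeff e p ≠ 0 → ((∑ i, e i : ℕ) : ℤ) = d := by
  rcases lt_or_ge d 0 with hd | hd
  · constructor
    · intro hp e he
      rw [(mvGr K (n + 1)).neg hd hp, MvPolynomial.coeff_zero] at he
      exact absurd rfl he
    · intro h
      have : p = 0 := by
        ext e
        rw [MvPolynomial.coeff_zero]
        by_contra hne
        have := h e hne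
        omega
      rw [this]
      exact Submodule.zero_mem _
  · lift d to ℕ using hd
    rw [mvGr_gr_coe, MvPolynomial.mem_homogeneousSubmodule]
    constructor
    · intro hp e he
      have h1 := hp he
      have h2 : e.degree = d := by
        rw [Finsupp.degree_eq_weight_one]
        exact h1
      rw [Finsupp.degree_eq_sum] at h2
      exact_mod_cast h2
    · intro h e he
      have h1 := h e he
      have h2 : e.degree = d := by
        rw [Finsupp.degree_eq_sum]
        exact_mod_cast h1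
      rw [Finsupp.degree_eq_weight_one] at h2
      exact h2

end mv

/-! ### the final definitions -/

section final

variable {K : Type*} [Field K] {n : ℕ} {S : Type*} [CommRing S] [Algebra K S]
  [Algebra (MvPolynomial (Fin (n + 1)) K) S] [IsScalarTower K (MvPolynomial (Fin (n + 1)) K) S]
  (𝒮 : ℕ → Submodule K S)

/-- the functionals `S → K[z_0, …, z_n]` of degree `s` which are zero on `J` -/
noncomputable def HHm (J : Ideal S) (s : ℤ) :
    Submodule K (S →ₗ[MvPolynomial (Fin (n + 1)) K] MvPolynomial (Fin (n + 1)) K) :=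
  DXA.Om 𝒮 s ⊓
  { carrier := {φ | ∀ x ∈ J, φ x = 0}
    add_mem' := by
      intro φ ψ h1 h2 x hx
      rw [LinearMap.add_apply, h1 x hx, h2 x hx, add_zero]
    zero_mem' := fun x _ => rfl
    smul_mem' := by
      intro c φ h1 x hx
      rw [LinearMap.smul_apply, h1 x hx, smul_zero] }

theorem mem_HHm {J : Ideal S} {s : ℤ}
    {φ : S →ₗ[MvPolynomial (Fin (n + 1)) K] MvPolynomial (Fin (n + 1)) K} :
    φ ∈ HHm 𝒮 J s ↔ φ ∈ DXA.Om 𝒮 s ∧ ∀ x ∈ J, φ x = 0 := Iff.rfl

variable (Q : Type*) [Field Q] [Algebra S Q] [Algebra K Q] [IsScalarTower K S Q]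

/-- the homogeneous fractions `b` of degree `s` such that `J b ⊆ S` -/
def FFm (J : Ideal S) (s : ℕ) : Submodule K Q where
  carrier := {b | ∀ n, ∀ j ∈ J, j ∈ 𝒮 n → ∃ x ∈ 𝒮 (n + s), algebraMap S Q j * b = algebraMap S Q x}
  add_mem' := by
    intro a b ha hb n j hj hn
    obtain ⟨x, hx, hx'⟩ := ha n j hj hn
    obtain ⟨y, hy, hy'⟩ := hb n j hj hn
    exact ⟨x + y, Submodule.add_mem _ hx hy, by rw [mul_add, hx', hy', map_add]⟩
  zero_mem' := by
    intro n j _ _
    exact ⟨0, Submodule.zero_mem _, by rw [mul_zero, map_zero]⟩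
  smul_mem' := by
    intro c a ha n j hj hn
    obtain ⟨x, hx, hx'⟩ := ha n j hj hn
    refine ⟨c • x, Submodule.smul_mem _ _ hx, ?_⟩
    rw [mul_smul_comm, hx', Algebra.smul_def, Algebra.smul_def, map_mul,
      ← IsScalarTower.algebraMap_apply]

theorem mem_FFm {J : Ideal S} {s : ℕ} {b : Q} : b ∈ FFm 𝒮 Q J s ↔
    ∀ n, ∀ j ∈ J, j ∈ 𝒮 n → ∃ x ∈ 𝒮 (n + s), algebraMap S Q j * b = algebraMap S Q x := Iff.rfl

variable [GradedAlgebra 𝒮]

theorem FF_eq (J : Ideal S) (s : ℕ) : FF (ofNat 𝒮) Q J s = FFm 𝒮 Q J s := by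
  ext b
  constructor
  · intro hb k j hj hk
    obtain ⟨x, hx, hx'⟩ := hb k j hj (by rw [ofNat_gr_coe]; exact hk)
    rw [← Nat.cast_add, ofNat_gr_coe] at hx
    exact ⟨x, hx, hx'⟩
  · intro hb k j hj hk
    rcases lt_or_ge k 0 with h | h
    · have : j = 0 := (ofNat 𝒮).neg h hk
      exact ⟨0, Submodule.zero_mem _, by rw [this, map_zero, zero_mul]⟩
    · lift k to ℕ using h
      rw [ofNat_gr_coe] at hk
      obtain ⟨x, hx, hx'⟩ := hb k j hj hk
      refine ⟨x, ?_, hx'⟩
      rw [← Nat.cast_add, ofNat_gr_coe]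
      exact hx

theorem HH_iff (J : Ideal S) (s : ℤ)
    (φ : S →ₗ[MvPolynomial (Fin (n + 1)) K] MvPolynomial (Fin (n + 1)) K) :
    (φ : Fnl (MvPolynomial (Fin (n + 1)) K) S) ∈ HH (mvGr K (n + 1)) (ofNat 𝒮) J s ↔
      φ ∈ HHm 𝒮 J s := by
  rw [mem_HHm, DXA.mem_Om]
  refine and_congr ?_ Iff.rfl
  constructor
  · intro h k y hy
    have h1 := h k y (by rw [ofNat_gr_coe]; exact hy)
    exact (mem_mvGr K n _ _).1 h1
  · intro h k y hy
    rcases lt_or_ge k 0 with hk | hk
    · have : y = 0 := (ofNat 𝒮).neg hk hy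
      show φ y ∈ _
      rw [this, map_zero]
      exact Submodule.zero_mem _
    · lift k to ℕ using hk
      rw [ofNat_gr_coe] at hy
      exact (mem_mvGr K n _ _).2 (h k y hy)

/-- the two spaces of functionals are the same -/
noncomputable def HH_equiv (J : Ideal S) (s : ℤ) :
    HH (mvGr K (n + 1)) (ofNat 𝒮) J s ≃ₗ[K] HHm (n := n) 𝒮 J s where
  toFun φ := ⟨(φ : Fnl (MvPolynomial (Fin (n + 1)) K) S).f, (HH_iff 𝒮 J s _).1 φ.2⟩
  invFun φ := ⟨(φ : S →ₗ[MvPolynomial (Fin (n + 1)) K] MvPolynomial (Fin (n + 1)) K),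
    (HH_iff 𝒮 J s _).2 φ.2⟩
  map_add' _ _ := rfl
  map_smul' _ _ := rfl
  left_inv _ := rfl
  right_inv _ := rfl

end final

/-! ### the final theorem -/

section last

variable {K : Type*} [Field K] {n : ℕ} {S : Type*} [CommRing S] [IsDomain S] [Algebra K S]
  [Algebra (MvPolynomial (Fin (n + 1)) K) S] [IsScalarTower K (MvPolynomial (Fin (n + 1)) K) S]
  (𝒮 : ℕ → Submodule K S) [GradedAlgebra 𝒮]

omit [IsDomain S] [Algebra (MvPolynomial (Fin (n + 1)) K) S]
  [IsScalarTower K (MvPolynomial (Fin (n + 1)) K) S] in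
theorem isHomG_of (J : Ideal S) (hJ : J.IsHomogeneous 𝒮) : IsHomG (ofNat 𝒮) J := by
  classical
  intro x hx
  rw [← DirectSum.sum_support_decompose 𝒮 x]
  refine Ideal.sum_mem _ fun i _ => Ideal.subset_span ⟨hJ i hx, i, ?_⟩
  rw [ofNat_gr_coe]
  exact SetLike.coe_mem _

omit [IsDomain S] in
/-- monic polynomials in `J` -/
theorem monic_of (θ : S) (J : Ideal S)
    (hJ : Module.Finite (MvPolynomial (Fin (n + 1)) K) (S ⧸ J)) :
    ∃ p : (MvPolynomial (Fin (n + 1)) K)[X], p.Monic ∧ Polynomial.aeval θ p ∈ J := by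
  obtain ⟨p, hp, hp'⟩ : IsIntegral (MvPolynomial (Fin (n + 1)) K) (Ideal.Quotient.mk J θ) :=
    IsIntegral.of_finite _ _
  refine ⟨p, hp, ?_⟩
  rw [← Ideal.Quotient.eq_zero_iff_mem, ← hp']
  have h1 : (Ideal.Quotient.mk J) (Polynomial.aeval θ p) =
      Polynomial.aeval (Ideal.Quotient.mk J θ) p := by
    have := Polynomial.aeval_algHom_apply (Ideal.Quotient.mkₐ (MvPolynomial (Fin (n + 1)) K) J) θ p
    exact this.symm
  rw [h1]
  rfl

/-- **Theorem GMD** (functionals and fractions). -/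
theorem gmd (hz : ∀ i, algebraMap (MvPolynomial (Fin (n + 1)) K) S (MvPolynomial.X i) ∈ 𝒮 1)
    (θ : S) (hθ : θ ∈ 𝒮 1)
    (hinj : Function.Injective (Polynomial.aeval θ :
      (MvPolynomial (Fin (n + 1)) K)[X] →ₐ[MvPolynomial (Fin (n + 1)) K] S))
    (hfin : (Polynomial.aeval θ :
      (MvPolynomial (Fin (n + 1)) K)[X] →ₐ[MvPolynomial (Fin (n + 1)) K] S).toRingHom.Finite)
    (Q : Type*) [Field Q] [Algebra S Q] [IsFractionRing S Q] [Algebra K Q]
    [IsScalarTower K S Q] :
    (∀ d, FiniteDimensional K (𝒮 d)) ∧ ∃ c C : ℕ, ∀ J : Ideal S, J.IsHomogeneous 𝒮 →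
      Module.Finite (MvPolynomial (Fin (n + 1)) K) (S ⧸ J) →
      (∀ s : ℤ, FiniteDimensional K (HHm (n := n) 𝒮 J s)) ∧
      (∀ s : ℕ, FiniteDimensional K (FFm 𝒮 Q J s)) ∧
      ∀ s : ℕ, finrank K (HHm (n := n) 𝒮 J s) + finrank K (𝒮 s) ≤
          finrank K (FFm 𝒮 Q J (s + c)) + C * (s + 1) ^ n ∧
        finrank K (FFm 𝒮 Q J s) ≤
          finrank K (𝒮 (s + c)) + finrank K (HHm (n := n) 𝒮 J ((s + c : ℕ) : ℤ)) := by
  let _ : Algebra (MvPolynomial (Fin (n + 1)) K)[X] S := (Polynomial.aeval θ :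
      (MvPolynomial (Fin (n + 1)) K)[X] →ₐ[MvPolynomial (Fin (n + 1)) K] S).toRingHom.toAlgebra
  have hmap : ∀ p : (MvPolynomial (Fin (n + 1)) K)[X],
      algebraMap (MvPolynomial (Fin (n + 1)) K)[X] S p = Polynomial.aeval θ p := fun p => rfl
  have : IsScalarTower (MvPolynomial (Fin (n + 1)) K) (MvPolynomial (Fin (n + 1)) K)[X] S := by
    refine IsScalarTower.of_algebraMap_eq fun a => ?_
    rw [hmap, Polynomial.algebraMap_eq, Polynomial.aeval_C]
  have hth : th (MvPolynomial (Fin (n + 1)) K) S = θ := by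
    rw [th, hmap, Polynomial.aeval_X]
  have : Module.Finite (MvPolynomial (Fin (n + 1)) K)[X] S := hfin
  have hc0 : Compat K (mvGr K (n + 1)) (ofNat 𝒮) := by
    apply compat_mv
    intro i
    have := hz i
    rw [← ofNat_gr_coe 𝒮 1] at this
    exact this
  have hth1 : th (MvPolynomial (Fin (n + 1)) K) S ∈ (ofNat 𝒮).gr 1 := by
    rw [hth]
    have := hθ
    rw [← ofNat_gr_coe 𝒮 1] at this
    exact this
  have ha0 : (MvPolynomial.X 0 : MvPolynomial (Fin (n + 1)) K) ∈ (mvGr K (n + 1)).gr 1 := by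
    have h1 := mvGr_gr_coe K (n + 1) 1
    rw [Nat.cast_one] at h1
    rw [h1]
    exact (MvPolynomial.mem_homogeneousSubmodule _ _).2 (MvPolynomial.isHomogeneous_X _ _)
  obtain ⟨h1, c, C, h2⟩ := main_bounds (A := MvPolynomial (Fin (n + 1)) K) (S := S)
    (G := mvGr K (n + 1)) (H := ofNat 𝒮) Q (mv_fd K n) (mv_bd K n) ha0
    (MvPolynomial.X_ne_zero 0) hc0 hth1 hinj
  refine ⟨fun d => ?_, c, C, fun J hJh hJf => ?_⟩
  · have := h1 d
    rwa [ofNat_gr_coe] at this
  · obtain ⟨p, hp, hp'⟩ := monic_of θ J hJf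
    obtain ⟨hH, hF, hs⟩ := h2 J ⟨isHomG_of 𝒮 J hJh, p, hp, hp'⟩
    refine ⟨fun s => ?_, fun s => ?_, fun s => ?_⟩
    · have := hH s
      exact LinearEquiv.finiteDimensional (HH_equiv (n := n) 𝒮 J s)
    · have := hF s
      rwa [FF_eq] at this
    · obtain ⟨k1, k2⟩ := hs s
      rw [← Nat.cast_add] at k1 k2
      have e1 := (HH_equiv (n := n) 𝒮 J (s : ℤ)).finrank_eq
      have e2 := (HH_equiv (n := n) 𝒮 J ((s + c : ℕ) : ℤ)).finrank_eq
      rw [e1, FF_eq, ofNat_gr_coe] at k1
      rw [e2, FF_eq, ofNat_gr_coe] at k2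
      exact ⟨k1, k2⟩

end last

end Pool.Agent.GMD
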