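import Mathlib

/-!
# GMD: functionals on a finite extension of `A[X]` killed by a monic polynomial, and fractions

`S` is an algebra over `A[X]`, `g ∈ A[X]` is monic, `φ : S → A` is `A`-linear and `φ (g x) = 0` for
all `x`.  The polynomial `cc g φ x = g * ∑ φ (X ^ l x) X ^ (-l-1)` is linear modulo `g`.
-/

set_option autoImplicit false

open Polynomial

namespace Pool.Agent.GMD

section core

variable {A S : Type*} [CommRing A] [CommRing S] [Algebra A S] [Algebra A[X] S]
  [IsScalarTower A A[X] S]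

theorem coeff_divX_iterate (g : A[X]) (l n : ℕ) : (divX^[l] g).coeff n = g.coeff (n + l) := by
  induction l generalizing n with
  | zero => simp
  | succ l ih =>
    rw [Function.iterate_succ_apply', coeff_divX, ih]
    congr 1
    omega

theorem X_mul_divX_iterate (g : A[X]) (l : ℕ) :
    X * divX^[l + 1] g + C (g.coeff l) = divX^[l] g := by
  have := divX_mul_X_add (divX^[l] g)
  rw [Function.iterate_succ_apply', mul_comm]
  convert this using 3
  rw [coeff_divX_iterate]
  simp

/-- `θ` -/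
noncomputable def th (A S : Type*) [CommRing A] [CommRing S] [Algebra A[X] S] : S :=
  algebraMap A[X] S X

/-- the numerator of the fraction `∑ φ (X ^ l x) X ^ (-l-1)` with denominator `g` -/
noncomputable def cc (g : A[X]) (φ : S →ₗ[A] A) : S →ₗ[A] A[X] :=
  ∑ l ∈ Finset.range g.natDegree, (LinearMap.toSpanSingleton A A[X] (divX^[l + 1] g)).comp
    (φ.comp (LinearMap.mulLeft A (th A S ^ l)))

theorem cc_apply (g : A[X]) (φ : S →ₗ[A] A) (x : S) :
    cc g φ x = ∑ l ∈ Finset.range g.natDegree, φ (th A S ^ l * x) • divX^[l + 1] g := by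
  simp [cc]

theorem cc_add (g : A[X]) (φ ψ : S →ₗ[A] A) (x : S) : cc g (φ + ψ) x = cc g φ x + cc g ψ x := by
  simp [cc_apply, add_smul, Finset.sum_add_distrib]

theorem cc_smul (g : A[X]) (a : A) (φ : S →ₗ[A] A) (x : S) :
    cc g (a • φ) x = a • cc g φ x := by
  simp [cc_apply, Finset.smul_sum, smul_smul]

theorem smul_eq_sum_th (g : A[X]) (x : S) :
    g • x = ∑ l ∈ Finset.range (g.natDegree + 1), g.coeff l • (th A S ^ l * x) := by
  conv_lhs => rw [g.as_sum_range_C_mul_X_pow]
  rw [Finset.sum_smul]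
  refine Finset.sum_congr rfl fun l _ => ?_
  rw [Algebra.smul_def, map_mul, map_pow, mul_assoc, th]
  have h1 : algebraMap A[X] S (C (g.coeff l)) = algebraMap A S (g.coeff l) := by
    rw [IsScalarTower.algebraMap_apply A A[X] S]
    rfl
  rw [h1, ← Algebra.smul_def]

theorem cc_th (g : A[X]) (φ : S →ₗ[A] A) (hφ : ∀ x, φ (g • x) = 0) (x : S) :
    cc g φ (th A S * x) = X * cc g φ x - g * C (φ x) := by
  have h1 : ∀ l, φ (th A S ^ l * (th A S * x)) = φ (th A S ^ (l + 1) * x) := by
    intro l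
    rw [pow_succ, mul_assoc]
  have h2 : φ (g • x) = 0 := hφ x
  rw [smul_eq_sum_th, map_sum] at h2
  simp only [map_smul, smul_eq_mul] at h2
  rw [cc_apply, cc_apply]
  simp only [h1]
  have h3 : ∀ l, φ (th A S ^ (l + 1) * x) • divX^[l + 1] g =
      X * (φ (th A S ^ (l + 1) * x) • divX^[l + 1 + 1] g) +
        C (g.coeff (l + 1) * φ (th A S ^ (l + 1) * x)) := by
    intro l
    conv_lhs => rw [← X_mul_divX_iterate g (l + 1)]
    rw [smul_add, mul_smul_comm, smul_C, smul_eq_mul, mul_comm (g.coeff _)]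
  rw [Finset.sum_congr rfl fun l _ => h3 l, Finset.sum_add_distrib, ← Finset.mul_sum]
  have h4 : (∑ l ∈ Finset.range g.natDegree, φ (th A S ^ (l + 1) * x) • divX^[l + 1 + 1] g) +
      φ x • divX^[1] g = ∑ l ∈ Finset.range g.natDegree, φ (th A S ^ l * x) • divX^[l + 1] g := by
    have h5 : ∑ l ∈ Finset.range (g.natDegree + 1), φ (th A S ^ l * x) • divX^[l + 1] g =
        (∑ l ∈ Finset.range g.natDegree, φ (th A S ^ (l + 1) * x) • divX^[l + 1 + 1] g) +
        φ x • divX^[1] g := by
      rw [Finset.sum_range_succ']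
      simp
    rw [← h5, Finset.sum_range_succ]
    have h6 : divX^[g.natDegree + 1] g = 0 := by
      ext n
      rw [coeff_divX_iterate, coeff_zero]
      exact coeff_eq_zero_of_natDegree_lt (by omega)
    rw [h6, smul_zero, add_zero]
  have h7 : (∑ l ∈ Finset.range g.natDegree, C (g.coeff (l + 1) * φ (th A S ^ (l + 1) * x))) =
      - C (g.coeff 0 * φ x) := by
    rw [Finset.sum_range_succ'] at h2
    simp only [pow_zero, one_mul] at h2
    rw [← map_sum, eq_neg_of_add_eq_zero_left h2, map_neg]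
  rw [← h4, h7]
  have h8 := X_mul_divX_iterate g 0
  simp only [Function.iterate_zero, id_eq, zero_add] at h8
  rw [mul_add, mul_smul_comm]
  have h9 : φ x • (X * divX^[1] g) = φ x • (g - C (g.coeff 0)) := by
    congr 1
    exact eq_sub_of_add_eq h8
  rw [h9, smul_sub, smul_C, smul_eq_mul, mul_comm (φ x) (g.coeff 0), smul_eq_C_mul]
  ring

/-- `cc` is linear over `A[X]` modulo `g` -/
theorem dvd_cc (g : A[X]) (φ : S →ₗ[A] A) (hφ : ∀ x, φ (g • x) = 0) (p : A[X]) (x : S) :
    g ∣ cc g φ (p • x) - p * cc g φ x := by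
  induction p using Polynomial.induction_on' generalizing x with
  | add p q hp hq =>
    have : cc g φ ((p + q) • x) - (p + q) * cc g φ x =
        (cc g φ (p • x) - p * cc g φ x) + (cc g φ (q • x) - q * cc g φ x) := by
      rw [add_smul, map_add]
      ring
    rw [this]
    exact dvd_add (hp x) (hq x)
  | monomial n a =>
    have h0 : ∀ n : ℕ, ∀ x : S, g ∣ cc g φ (th A S ^ n * x) - X ^ n * cc g φ x := by
      intro n
      induction n with
      | zero => intro x; simp
      | succ n ih =>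
        intro x
        have h1 : cc g φ (th A S ^ (n + 1) * x) - X ^ (n + 1) * cc g φ x =
            (cc g φ (th A S ^ n * (th A S * x)) - X ^ n * cc g φ (th A S * x)) +
              X ^ n * (cc g φ (th A S * x) - X * cc g φ x) := by
          rw [pow_succ (th A S), mul_assoc]
          ring
        rw [h1]
        refine dvd_add (ih _) (Dvd.dvd.mul_left ?_ _)
        rw [cc_th g φ hφ, sub_sub_cancel_left]
        exact (dvd_neg).2 (dvd_mul_right _ _)
    have h1 : (monomial n a : A[X]) • x = a • (th A S ^ n * x) := by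
      rw [← C_mul_X_pow_eq_monomial, Algebra.smul_def, map_mul, map_pow, mul_assoc, th,
        ← algebraMap_eq, ← IsScalarTower.algebraMap_apply, ← Algebra.smul_def]
    have h2 : cc g φ ((monomial n a : A[X]) • x) - monomial n a * cc g φ x =
        C a * (cc g φ (th A S ^ n * x) - X ^ n * cc g φ x) := by
      rw [h1, map_smul, smul_eq_C_mul, ← C_mul_X_pow_eq_monomial]
      ring
    rw [h2]
    exact Dvd.dvd.mul_left (h0 n x) _

/-- the top coefficient of `cc` -/
theorem cc_coeff_top (g : A[X]) (hg : g.Monic) (φ : S →ₗ[A] A) (x : S)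
    (hN : 0 < g.natDegree) : (cc g φ x).coeff (g.natDegree - 1) = φ x := by
  rw [cc_apply, finsetSum_coeff, Finset.sum_eq_single 0]
  · rw [coeff_smul, coeff_divX_iterate]
    have : g.natDegree - 1 + (0 + 1) = g.natDegree := by omega
    rw [this, hg.coeff_natDegree, pow_zero, one_mul, smul_eq_mul, mul_one]
  · intro l hl hl0
    rw [coeff_smul, coeff_divX_iterate, coeff_eq_zero_of_natDegree_lt (by omega), smul_zero]
  · intro h
    exact absurd (Finset.mem_range.2 hN) h

theorem cc_degree_lt [Nontrivial A] (g : A[X]) (hg : g.Monic) (φ : S →ₗ[A] A) (x : S) :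
    (cc g φ x).degree < g.degree := by
  rw [degree_eq_natDegree hg.ne_zero, degree_lt_iff_coeff_zero]
  intro m hm
  rw [cc_apply, finsetSum_coeff]
  apply Finset.sum_eq_zero
  intro l hl
  rw [coeff_smul, coeff_divX_iterate, coeff_eq_zero_of_natDegree_lt (by omega), smul_zero]

/-- if `g` divides `cc g φ x` then `φ x = 0` -/
theorem phi_eq_zero_of_dvd (g : A[X]) (hg : g.Monic) (φ : S →ₗ[A] A) (hφ : ∀ x, φ (g • x) = 0)
    (x : S) (h : g ∣ cc g φ x) : φ x = 0 := by
  nontriviality A
  have h1 : cc g φ x = 0 := by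
    obtain ⟨q, hq⟩ := h
    by_contra hne
    have hq0 : q ≠ 0 := by
      rintro rfl
      rw [mul_zero] at hq
      exact hne hq
    have h2 := cc_degree_lt g hg φ x
    rw [hq, mul_comm, hg.degree_mul, degree_eq_natDegree hg.ne_zero, degree_eq_natDegree hq0] at h2
    norm_cast at h2
    omega
  rcases Nat.eq_zero_or_pos g.natDegree with hN | hN
  · have hg1 : g = 1 := hg.natDegree_eq_zero.1 hN
    have := hφ x
    rwa [hg1, one_smul] at this
  · rw [← cc_coeff_top g hg φ x hN, h1, coeff_zero]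

/-- elements of an ideal killed by `φ` have `cc = 0` -/
theorem cc_eq_zero (g : A[X]) (φ : S →ₗ[A] A) (w : S) (h : ∀ x, φ (w * x) = 0) (x : S) :
    cc g φ (w * x) = 0 := by
  rw [cc_apply]
  apply Finset.sum_eq_zero
  intro l _
  rw [mul_left_comm, h, zero_smul]

end core

/-! ## Frames -/

/-- Coordinates for a finite torsion free extension `S` of a domain `Z`. -/
structure Frame (Z S : Type*) [CommRing Z] [CommRing S] [Algebra Z S] (r m : ℕ) where
  /-- independent elements -/
  e : Fin r → S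
  /-- generators -/
  s : Fin m → S
  /-- multiplier -/
  f : Z
  /-- coordinates -/
  co : Fin r → (S →ₗ[Z] Z)
  /-- a functional -/
  lam : S →ₗ[Z] Z
  /-- dual elements -/
  ep : Fin r → S
  /-- discriminant -/
  f' : Z
  f_ne : f ≠ 0
  f'_ne : f' ≠ 0
  span_s : Submodule.span Z (Set.range s) = ⊤
  co_sum : ∀ x, f • x = ∑ i, co i x • e i
  lam_ep : ∀ i j, lam (ep i * e j) = if i = j then f' else 0
  ep_sum : ∀ w, f' • w = ∑ k, lam (w * e k) • ep k

section good

variable {A S : Type*} [CommRing A] [IsDomain A] [CommRing S] [IsDomain S] [Algebra A S]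
  [Algebra A[X] S] [IsScalarTower A A[X] S] {r m : ℕ} (F : Frame A[X] S r m)

/-- the obstruction numerator -/
noncomputable def ob (g : A[X]) (φ : S →ₗ[A] A) (k : Fin m) : A[X] :=
  F.f * cc g φ (F.s k) - ∑ i, F.co i (F.s k) * cc g φ (F.e i)

theorem dvd_ob (g : A[X]) (φ : S →ₗ[A] A) (hφ : ∀ x, φ (g • x) = 0) (k : Fin m) :
    g ∣ ob F g φ k := by
  have h1 : ob F g φ k = -(cc g φ (F.f • F.s k) - F.f * cc g φ (F.s k)) +
      ∑ i, (cc g φ (F.co i (F.s k) • F.e i) - F.co i (F.s k) * cc g φ (F.e i)) := by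
    rw [Finset.sum_sub_distrib, ← map_sum, ← F.co_sum, ob]
    ring
  rw [h1]
  exact dvd_add ((dvd_neg).2 (dvd_cc g φ hφ _ _)) (Finset.dvd_sum fun i _ => dvd_cc g φ hφ _ _)

/-- the numerator of the fraction attached to `φ` -/
noncomputable def yy (g : A[X]) (φ : S →ₗ[A] A) : S := ∑ i, cc g φ (F.e i) • F.ep i

theorem lam_yy (g : A[X]) (φ : S →ₗ[A] A) (w : S) :
    F.f * F.lam (yy F g φ * w) = F.f' * ∑ i, F.co i w * cc g φ (F.e i) := by
  have h1 : ∀ i, F.lam (yy F g φ * F.e i) = F.f' * cc g φ (F.e i) := by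
    intro i
    rw [yy, Finset.sum_mul, map_sum, Finset.sum_eq_single i]
    · rw [smul_mul_assoc, map_smul, F.lam_ep, if_pos rfl, smul_eq_mul, mul_comm]
    · intro j _ hj
      rw [smul_mul_assoc, map_smul, F.lam_ep, if_neg hj, smul_zero]
    · intro h
      exact absurd (Finset.mem_univ i) h
  rw [← smul_eq_mul, ← map_smul, ← mul_smul_comm, F.co_sum, Finset.mul_sum, map_sum,
    Finset.mul_sum]
  refine Finset.sum_congr rfl fun i _ => ?_
  rw [mul_smul_comm, map_smul, h1, smul_eq_mul]
  ring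

/-- `φ` is good: the obstructions vanish -/
def Good (g : A[X]) (φ : S →ₗ[A] A) : Prop := ∀ k, g * F.f ∣ ob F g φ k

variable {F}

theorem Good.exists {g : A[X]} {φ : S →ₗ[A] A} (hφ : ∀ x, φ (g • x) = 0) (h : Good F g φ)
    (w : S) : ∃ c', F.lam (yy F g φ * w) = F.f' * c' ∧ g ∣ c' - cc g φ w := by
  have h1 : ∃ c', ∑ i, F.co i w * cc g φ (F.e i) = F.f * c' ∧ g ∣ c' - cc g φ w := by
    have hw : w ∈ Submodule.span A[X] (Set.range F.s) := by rw [F.span_s]; trivial
    induction hw using Submodule.span_induction with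
    | mem x hx =>
      obtain ⟨k, rfl⟩ := hx
      obtain ⟨q, hq⟩ := h k
      rw [ob] at hq
      refine ⟨cc g φ (F.s k) - g * q, ?_, ?_⟩
      · linear_combination -hq
      · rw [sub_right_comm, sub_self, zero_sub]
        exact (dvd_neg).2 (dvd_mul_right _ _)
    | zero => exact ⟨0, by simp, by simp⟩
    | add x y _ _ hx hy =>
      obtain ⟨a, ha, ha'⟩ := hx
      obtain ⟨b, hb, hb'⟩ := hy
      refine ⟨a + b, ?_, ?_⟩
      · simp only [map_add, add_mul, Finset.sum_add_distrib, ha, hb, mul_add]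
      · rw [map_add, add_sub_add_comm]
        exact dvd_add ha' hb'
    | smul p x _ hx =>
      obtain ⟨a, ha, ha'⟩ := hx
      refine ⟨p * a, ?_, ?_⟩
      · simp only [map_smul, smul_eq_mul, mul_assoc, ← Finset.mul_sum, ha]
        ring
      · have : p * a - cc g φ (p • x) = p * (a - cc g φ x) - (cc g φ (p • x) - p * cc g φ x) := by
          ring
        rw [this]
        exact dvd_sub (Dvd.dvd.mul_left ha' _) (dvd_cc g φ hφ _ _)
  obtain ⟨c', h2, h3⟩ := h1
  refine ⟨c', ?_, h3⟩
  apply mul_left_cancel₀ F.f_ne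
  rw [lam_yy, h2]
  ring

/-- elements killing `φ` are denominators -/
theorem Good.dvd_of_ann {g : A[X]} {φ : S →ₗ[A] A} (hφ : ∀ x, φ (g • x) = 0) (h : Good F g φ)
    [Module.IsTorsionFree A[X] S]
    (w : S) (hw : ∀ x, φ (w * x) = 0) : ∃ u : S, w * yy F g φ = g • u := by
  have h1 : ∀ k, ∃ c, F.lam (w * yy F g φ * F.e k) = F.f' * (g * c) := by
    intro k
    obtain ⟨c', h2, h3⟩ := h.exists hφ (w * F.e k)
    rw [cc_eq_zero g φ w hw, sub_zero] at h3
    obtain ⟨c, rfl⟩ := h3
    refine ⟨c, ?_⟩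
    rw [← h2]
    congr 1
    ring
  choose c hc using h1
  refine ⟨∑ k, c k • F.ep k, ?_⟩
  have h2 := F.ep_sum (w * yy F g φ)
  simp only [hc] at h2
  have h3 : F.f' • (w * yy F g φ) = F.f' • g • ∑ k, c k • F.ep k := by
    rw [h2, Finset.smul_sum, Finset.smul_sum]
    simp only [smul_smul, mul_assoc]
  exact smul_right_injective S F.f'_ne h3

/-- denominators kill `f' φ` -/
theorem Good.ann_of_dvd {g : A[X]} (hg : g.Monic) {φ : S →ₗ[A] A} (hφ : ∀ x, φ (g • x) = 0)
    (h : Good F g φ)
    (w u : S) (hw : w * yy F g φ = g • u) (x : S) : φ (F.f' • (w * x)) = 0 := by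
  apply phi_eq_zero_of_dvd g hg φ hφ
  obtain ⟨c', h2, h3⟩ := h.exists hφ (w * x)
  have h4 : F.lam (yy F g φ * (w * x)) = g * F.lam (u * x) := by
    rw [← mul_assoc, mul_comm _ w, hw, smul_mul_assoc, map_smul, smul_eq_mul]
  rw [h4] at h2
  have h5 : cc g φ (F.f' • (w * x)) = (cc g φ (F.f' • (w * x)) - F.f' * cc g φ (w * x)) -
      F.f' * (c' - cc g φ (w * x)) + g * F.lam (u * x) := by
    rw [h2]
    ring
  rw [h5]
  exact dvd_add (dvd_sub (dvd_cc g φ hφ _ _) (Dvd.dvd.mul_left h3 _)) (dvd_mul_right _ _)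

/-- injectivity -/
theorem Good.eq_zero {g : A[X]} (hg : g.Monic) {φ : S →ₗ[A] A} (hφ : ∀ x, φ (g • x) = 0)
    (h : Good F g φ)
    (u : S) (hw : yy F g φ = g • F.f' • u) : φ = 0 := by
  refine LinearMap.ext fun x => ?_
  rw [LinearMap.zero_apply]
  apply phi_eq_zero_of_dvd g hg φ hφ
  obtain ⟨c', h2, h3⟩ := h.exists hφ x
  rw [hw, smul_mul_assoc, smul_mul_assoc, map_smul, map_smul, smul_eq_mul, smul_eq_mul] at h2
  have h4 : g * F.lam (u * x) = c' := by
    apply mul_left_cancel₀ F.f'_ne
    rw [← h2]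
    ring
  have h5 : cc g φ x = g * F.lam (u * x) - (c' - cc g φ x) := by
    rw [h4]
    ring
  rw [h5]
  exact dvd_sub (dvd_mul_right _ _) h3

end good

/-! ## From fractions to functionals -/

section bad

variable {A S : Type*} [CommRing A] [IsDomain A] [CommRing S] [IsDomain S] [Algebra A S]
  [Algebra A[X] S] [IsScalarTower A A[X] S] {r m : ℕ} (F : Frame A[X] S r m)

/-- the functional `x ↦ residue of lam (y x) / g` -/
noncomputable def psi (g : A[X]) (y : S) : S →ₗ[A] A where
  toFun x := (F.lam (y * x) %ₘ g).coeff (g.natDegree - 1)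
  map_add' := by
    intro x x'
    rw [mul_add, map_add, add_modByMonic, coeff_add]
  map_smul' := by
    intro a x
    rw [mul_smul_comm, ← algebraMap_smul A[X] a (y * x), map_smul, algebraMap_smul,
      smul_modByMonic, coeff_smul, RingHom.id_apply]

theorem psi_apply (g : A[X]) (y x : S) :
    psi F g y x = (F.lam (y * x) %ₘ g).coeff (g.natDegree - 1) := rfl

theorem psi_add (g : A[X]) (y y' : S) : psi F g (y + y') = psi F g y + psi F g y' := by
  refine LinearMap.ext fun x => ?_
  rw [LinearMap.add_apply, psi_apply, psi_apply, psi_apply, add_mul, map_add, add_modByMonic,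
    coeff_add]

theorem psi_smul (g : A[X]) (a : A) (y : S) : psi F g (a • y) = a • psi F g y := by
  refine LinearMap.ext fun x => ?_
  rw [LinearMap.smul_apply, psi_apply, psi_apply, smul_mul_assoc,
    ← algebraMap_smul A[X] a (y * x), map_smul, algebraMap_smul,
      smul_modByMonic, coeff_smul]

theorem psi_kill (g : A[X]) (hg : g.Monic) (y w u : S) (h : w * y = g • u) (x : S) :
    psi F g y (w * x) = 0 := by
  rw [psi_apply, ← mul_assoc, mul_comm y, h, smul_mul_assoc, map_smul, smul_eq_mul,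
    (modByMonic_eq_zero_iff_dvd hg).2 (dvd_mul_right _ _), coeff_zero]

/-- if all residues vanish then `g` divides -/
theorem dvd_of_psi (g : A[X]) (hg : g.Monic) (y : S) (h : psi F g y = 0) (x : S) :
    g ∣ F.lam (y * x) := by
  rw [← modByMonic_eq_zero_iff_dvd hg]
  rcases Nat.eq_zero_or_pos g.natDegree with hN | hN
  · rw [hg.natDegree_eq_zero.1 hN, modByMonic_one]
  -- all `X ^ l * p %ₘ g` have top coefficient zero
  set p := F.lam (y * x) with hp
  have h1 : ∀ l : ℕ, ((X ^ l * p) %ₘ g).coeff (g.natDegree - 1) = 0 := by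
    intro l
    have h2 := LinearMap.congr_fun h ((X ^ l : A[X]) • x)
    rwa [psi_apply, mul_smul_comm, map_smul, smul_eq_mul, LinearMap.zero_apply] at h2
  by_contra hne
  set q := p %ₘ g with hq
  have hqd : q.natDegree < g.natDegree := by
    apply natDegree_modByMonic_lt p hg
    rintro rfl
    simp at hN
  -- take `l = N - 1 - natDegree q`
  have h3 := h1 (g.natDegree - 1 - q.natDegree)
  have h4 : (X ^ (g.natDegree - 1 - q.natDegree) * p) %ₘ g =
      X ^ (g.natDegree - 1 - q.natDegree) * q := by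
    have h5 : (X ^ (g.natDegree - 1 - q.natDegree) * p) %ₘ g =
        (X ^ (g.natDegree - 1 - q.natDegree) * q) %ₘ g := by
      rw [← sub_eq_zero, ← sub_modByMonic, modByMonic_eq_zero_iff_dvd hg, ← mul_sub]
      apply Dvd.dvd.mul_left
      rw [hq, ← modByMonic_eq_zero_iff_dvd hg, sub_modByMonic, sub_eq_zero]
      exact (modByMonic_eq_self_iff hg).2 (degree_modByMonic_lt p hg) |>.symm
    rw [h5]
    apply (modByMonic_eq_self_iff hg).2
    rw [degree_eq_natDegree hg.ne_zero]
    apply lt_of_le_of_lt degree_le_natDegree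
    norm_cast
    apply lt_of_le_of_lt natDegree_mul_le
    rw [natDegree_X_pow]
    omega
  rw [h4, mul_comm, coeff_mul_X_pow'] at h3
  rw [if_pos (by omega)] at h3
  have h6 : g.natDegree - 1 - (g.natDegree - 1 - q.natDegree) = q.natDegree := by omega
  rw [h6, coeff_natDegree, leadingCoeff_eq_zero] at h3
  exact hne h3

theorem psi_injective (g : A[X]) (hg : g.Monic) (y : S) (h : psi F g y = 0) :
    ∃ u, F.f' • y = g • u := by
  choose c hc using fun k => dvd_of_psi F g hg y h (F.e k)
  refine ⟨∑ k, c k • F.ep k, ?_⟩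
  rw [F.ep_sum, Finset.smul_sum]
  refine Finset.sum_congr rfl fun k _ => ?_
  rw [hc, smul_smul]

end bad

end Pool.Agent.GMD
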