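import Pool.Agent.GMD.Upper

/-!
# GMD: the final inequalities, uniform in the ideal `J`
-/

set_option autoImplicit false

open Polynomial Module

namespace Pool.Agent.GMD

section

variable {K A S : Type*} [Field K] [CommRing A] [Algebra K A] [CommRing S]
  [Algebra K S] [Algebra A S] [Algebra A[X] S] [IsScalarTower A A[X] S]
  [IsScalarTower K A S] {G : Gr K A} {H : Gr K S} {J : Ideal S}

/-- a bound for translated degrees -/
theorem toNat_bound (a : ℤ) (s : ℕ) : (a + s).toNat + 1 ≤ (a.natAbs + 1) * (s + 1) := by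
  have h1 : (a + s).toNat ≤ a.natAbs + s := by omega
  have h2 : a.natAbs + s + 1 ≤ (a.natAbs + 1) * (s + 1) := by
    rw [add_mul, mul_add]
    have := Nat.zero_le (a.natAbs * s)
    omega
  omega

variable (K A S) in
theorem tower_poly : IsScalarTower K A[X] S := by
  refine IsScalarTower.of_algebraMap_eq fun k => ?_
  rw [IsScalarTower.algebraMap_apply K A S, IsScalarTower.algebraMap_apply A A[X] S]
  rfl

theorem smul_comm' (p : A[X]) (c : K) (x : S) : p • (c • x) = c • (p • x) := by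
  rw [Algebra.smul_def, mul_smul_comm, ← Algebra.smul_def]

/-- the forms of `S` are finite dimensional -/
theorem fd_S [IsDomain A] [IsDomain S] (hfd : ∀ d, FiniteDimensional K (G.gr d)) {r m : ℕ}
    (hinj : Function.Injective (algebraMap A[X] S)) (F : HFrame (polyGr G) H r m) (d : ℤ) :
    FiniteDimensional K (H.gr d) := by
  have h1 : ∀ d, FiniteDimensional K ((polyGr G).gr d) := fd_poly hfd
  have : Module.IsTorsionFree A[X] S := Module.isTorsionFree_iff_algebraMap_injective.2 hinj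
  have : IsScalarTower K A[X] S := tower_poly K A S
  let T : H.gr d →ₗ[K] (∀ i : Fin r, (polyGr G).gr (d + F.D - F.dE i)) :=
    { toFun := fun x i => ⟨F.co i (x : S), F.co_mem i x.2⟩
      map_add' := by
        intro x y
        funext i
        exact Subtype.ext (map_add _ _ _)
      map_smul' := by
        intro c x
        funext i
        exact Subtype.ext (((F.co i).restrictScalars K).map_smul c (x : S)) }
  refine FiniteDimensional.of_injective T ?_
  intro x y hxy
  have h2 : ∀ i, F.co i (x : S) = F.co i (y : S) := fun i =>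
    congrArg Subtype.val (congrFun hxy i)
  have h3 : F.f • (x : S) = F.f • (y : S) := by
    rw [F.co_sum, F.co_sum]
    simp only [h2]
  exact Subtype.ext (smul_right_injective S F.f_ne h3)

/-- the cokernel of `θ` -/
theorem S_step (hfd : ∀ d, FiniteDimensional K (G.gr d))
    (hfdS : ∀ d, FiniteDimensional K (H.gr d)) (hc0 : Compat K G H)
    (hc : Compat K (polyGr G) H) (hθ : th A S ∈ H.gr 1) {r m : ℕ}
    (F : HFrame (polyGr G) H r m) (s : ℤ) :
    finrank K (H.gr s) ≤ finrank K (H.gr (s - 1)) + ∑ j, finrank K (G.gr (s - F.dS j)) := by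
  have h1 := hfdS (s - 1)
  let T : (H.gr (s - 1)) × (∀ j, G.gr (s - F.dS j)) →ₗ[K] H.gr s :=
    { toFun := fun p => ⟨th A S * (p.1 : S) + ∑ j, (p.2 j : A) • F.s j, by
        refine Submodule.add_mem _ ?_ (Submodule.sum_mem _ fun j _ => ?_)
        · have := H.mul_mem hθ p.1.2
          rwa [add_sub_cancel] at this
        · have := hc0 (p.2 j).2 (F.s_mem j)
          rwa [sub_add_cancel] at this⟩
      map_add' := by
        intro p q
        apply Subtype.ext
        simp only [Prod.fst_add, Prod.snd_add, Submodule.coe_add, Pi.add_apply, mul_add, add_smul,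
          Finset.sum_add_distrib]
        ring
      map_smul' := by
        intro c p
        apply Subtype.ext
        simp only [Prod.smul_fst, Prod.smul_snd, Submodule.coe_smul, Pi.smul_apply, mul_smul_comm,
          RingHom.id_apply, smul_add, Finset.smul_sum, smul_assoc] }
  have hT : Function.Surjective T := by
    rintro ⟨x, hx⟩
    have hx' : x ∈ Submodule.span A[X] (Set.range F.s) := by rw [F.span_s]; trivial
    obtain ⟨p, hp⟩ := (Submodule.mem_span_range_iff_exists_fun A[X]).1 hx'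
    have h2 := pr_span hc F.s F.dS F.s_mem p s
    rw [hp, H.pr_of_mem hx] at h2
    set q : Fin m → A[X] := fun j => (polyGr G).pr (s - F.dS j) (p j) with hq
    have hqm : ∀ j, q j ∈ (polyGr G).gr (s - F.dS j) := fun j => (polyGr G).pr_mem _ _
    refine ⟨(⟨∑ j, divX (q j) • F.s j, Submodule.sum_mem _ fun j _ => ?_⟩,
      fun j => ⟨(q j).coeff 0, by simpa using hqm j 0⟩), ?_⟩
    · have h3 := hc (divX_iterate_mem (G := G) (hqm j) 1) (F.s_mem j)
      have h4 : s - F.dS j - ((1 : ℕ) : ℤ) + F.dS j = s - 1 := by push_cast; ring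
      rwa [h4] at h3
    · apply Subtype.ext
      show th A S * ∑ j, divX (q j) • F.s j + ∑ j, (q j).coeff 0 • F.s j = x
      rw [h2, Finset.mul_sum, ← Finset.sum_add_distrib]
      refine Finset.sum_congr rfl fun j _ => ?_
      have h5 : q j = divX (q j) * X + C ((q j).coeff 0) := (divX_mul_X_add (q j)).symm
      have h6 : (C ((q j).coeff 0) : A[X]) • F.s j = (q j).coeff 0 • F.s j := by
        rw [← algebraMap_eq, algebraMap_smul]
      have h7 : (divX (q j) * X) • F.s j = th A S * divX (q j) • F.s j := by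
        rw [mul_smul, Algebra.smul_def X, ← th, mul_smul_comm]
      conv_rhs => rw [show (polyGr G).pr (s - F.dS j) (p j) = q j from rfl, h5, add_smul, h6, h7]
  have h8 := LinearMap.finrank_range_le T
  rw [LinearMap.range_eq_top.2 hT, finrank_top, finrank_prod] at h8
  have e2 : ∑ j, finrank K (G.gr (s - F.dS j)) = finrank K (∀ j, G.gr (s - F.dS j)) :=
    (finrank_pi_fintype K).symm
  rw [e2]
  exact h8

theorem S_steps (hfd : ∀ d, FiniteDimensional K (G.gr d)) {e : ℕ} (hb : Bd G e)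
    (hfdS : ∀ d, FiniteDimensional K (H.gr d)) (hc0 : Compat K G H)
    (hc : Compat K (polyGr G) H) (hθ : th A S ∈ H.gr 1) {r m : ℕ}
    (F : HFrame (polyGr G) H r m) (k : ℕ) :
    ∃ C : ℕ, ∀ s : ℕ, finrank K (H.gr s) ≤ finrank K (H.gr (s - k)) + C * (s + 1) ^ e := by
  induction k with
  | zero => exact ⟨0, fun s => by rw [Nat.cast_zero, sub_zero, zero_mul, add_zero]⟩
  | succ k ih =>
    obtain ⟨C, hC⟩ := ih
    refine ⟨C + ∑ j, ((-(k : ℤ) - F.dS j).natAbs + 1) ^ e, fun s => ?_⟩
    have h1 := hC s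
    have h2 := S_step hfd hfdS hc0 hc hθ F ((s : ℤ) - k)
    have h3 : ∀ j, finrank K (G.gr ((s : ℤ) - k - F.dS j)) ≤
        ((-(k : ℤ) - F.dS j).natAbs + 1) ^ e * (s + 1) ^ e := by
      intro j
      rw [← mul_pow]
      refine (hb _).trans (Nat.pow_le_pow_left ?_ e)
      have h4 := toNat_bound (-(k : ℤ) - F.dS j) s
      have h5 : (-(k : ℤ) - F.dS j) + s = (s : ℤ) - k - F.dS j := by ring
      rwa [h5] at h4
    have h4 : ∑ j, finrank K (G.gr ((s : ℤ) - k - F.dS j)) ≤
        (∑ j, ((-(k : ℤ) - F.dS j).natAbs + 1) ^ e) * (s + 1) ^ e := by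
      rw [Finset.sum_mul]
      exact Finset.sum_le_sum fun j _ => h3 j
    have h5 : (s : ℤ) - k - 1 = s - ((k + 1 : ℕ) : ℤ) := by push_cast; ring
    rw [h5] at h2
    rw [add_mul]
    omega

/-- multiplication by `θ` is injective on forms -/
theorem S_mono [IsDomain S] (hfdS : ∀ d, FiniteDimensional K (H.gr d)) (hθ : th A S ∈ H.gr 1)
    (hθ0 : th A S ≠ 0) {a b : ℤ} (hab : a ≤ b) : finrank K (H.gr a) ≤ finrank K (H.gr b) := by
  obtain ⟨k, hk⟩ := Int.le.dest hab
  have h1 := hfdS b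
  let T : H.gr a →ₗ[K] H.gr b :=
    { toFun := fun x => ⟨th A S ^ k * (x : S), by
        have := H.mul_mem (H.pow_mem hθ k) x.2
        rwa [mul_one, add_comm, hk] at this⟩
      map_add' := by
        intro x y
        exact Subtype.ext (mul_add _ _ _)
      map_smul' := by
        intro c x
        exact Subtype.ext (mul_smul_comm _ _ _) }
  refine LinearMap.finrank_le_finrank_of_injective (f := T) ?_
  intro x y hxy
  exact Subtype.ext (mul_left_cancel₀ (pow_ne_zero k hθ0) (congrArg Subtype.val hxy))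

theorem FF_mono [IsDomain S] (Q : Type*) [Field Q] [Algebra S Q] [IsFractionRing S Q] [Algebra K Q]
    [IsScalarTower K S Q] (hfdF : ∀ d, FiniteDimensional K (FF H Q J d)) (hθ : th A S ∈ H.gr 1)
    (hθ0 : th A S ≠ 0) {a b : ℤ} (hab : a ≤ b) :
    finrank K (FF H Q J a) ≤ finrank K (FF H Q J b) := by
  obtain ⟨k, hk⟩ := Int.le.dest hab
  have h1 := hfdF b
  have h0 : algebraMap S Q (th A S ^ k) ≠ 0 := by
    rw [Ne, FaithfulSMul.algebraMap_eq_zero_iff]
    exact pow_ne_zero k hθ0
  let T : FF H Q J a →ₗ[K] FF H Q J b :=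
    { toFun := fun x => ⟨algebraMap S Q (th A S ^ k) * (x : Q), by
        intro n j hj hn
        obtain ⟨y, hy, hy'⟩ := x.2 n j hj hn
        refine ⟨th A S ^ k * y, ?_, ?_⟩
        · have := H.mul_mem (H.pow_mem hθ k) hy
          have e1 : (k : ℤ) * 1 + (n + a) = n + b := by rw [← hk]; ring
          rwa [e1] at this
        · rw [map_mul, ← hy']
          ring⟩
      map_add' := by
        intro x y
        exact Subtype.ext (mul_add _ _ _)
      map_smul' := by
        intro c x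
        exact Subtype.ext (mul_smul_comm _ _ _) }
  refine LinearMap.finrank_le_finrank_of_injective (f := T) ?_
  intro x y hxy
  exact Subtype.ext (mul_left_cancel₀ h0 (congrArg Subtype.val hxy))

theorem HH_mono [IsDomain A] (hfdH : ∀ d, FiniteDimensional K (HH G H J d)) {a0 : A}
    (ha0 : a0 ∈ G.gr 1) (hne : a0 ≠ 0) {a b : ℤ} (hab : a ≤ b) :
    finrank K (HH G H J a) ≤ finrank K (HH G H J b) := by
  obtain ⟨k, hk⟩ := Int.le.dest hab
  have h1 := hfdH b
  let T : HH G H J a →ₗ[K] HH G H J b :=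
    { toFun := fun φ => ⟨(a0 ^ k • (φ : Fnl A S).f : S →ₗ[A] A), by
        refine ⟨fun n x hx => ?_, fun x hx => ?_⟩
        · show a0 ^ k * (φ : Fnl A S).f x ∈ _
          have := G.mul_mem (G.pow_mem ha0 k) (φ.2.1 n x hx)
          have e1 : (k : ℤ) * 1 + (n + a) = n + b := by rw [← hk]; ring
          rwa [e1] at this
        · show a0 ^ k * (φ : Fnl A S).f x = 0
          rw [φ.2.2 x hx, mul_zero]⟩
      map_add' := by
        intro x y
        exact Subtype.ext (Fnl.ext fun z => mul_add _ _ _)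
      map_smul' := by
        intro c x
        exact Subtype.ext (Fnl.ext fun z => mul_smul_comm _ _ _) }
  refine LinearMap.finrank_le_finrank_of_injective (f := T) ?_
  intro x y hxy
  refine Subtype.ext (Fnl.ext fun z => ?_)
  have h2 := congrArg (fun t => (t : Fnl A S).f z) (congrArg Subtype.val hxy)
  exact mul_left_cancel₀ (pow_ne_zero k hne) h2

/-- admissible ideals -/
def Adm (A : Type*) {K S : Type*} [Field K] [CommRing A] [CommRing S] [Algebra K S]
    [Algebra A[X] S] (H : Gr K S) (J : Ideal S) : Prop :=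
  IsHomG H J ∧ ∃ p : A[X], p.Monic ∧ algebraMap A[X] S p ∈ J

variable [IsDomain A] [IsDomain S] (Q : Type*) [Field Q] [Algebra S Q] [IsFractionRing S Q]
  [Algebra K Q] [IsScalarTower K S Q]

/-- **The comparison of functionals and fractions**, uniform in `J`. -/
theorem main_bounds (hfd : ∀ d, FiniteDimensional K (G.gr d)) {e : ℕ} (hb : Bd G e)
    {a0 : A} (ha0 : a0 ∈ G.gr 1) (hne : a0 ≠ 0) (hc0 : Compat K G H)
    (hθ : th A S ∈ H.gr 1) (hinj : Function.Injective (algebraMap A[X] S))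
    [Module.Finite A[X] S] :
    (∀ d, FiniteDimensional K (H.gr d)) ∧ ∃ c C : ℕ, ∀ J : Ideal S, Adm A H J →
      (∀ d, FiniteDimensional K (HH G H J d)) ∧ (∀ d, FiniteDimensional K (FF H Q J d)) ∧
      ∀ s : ℕ, finrank K (HH G H J s) + finrank K (H.gr s) ≤
        finrank K (FF H Q J (s + c)) + C * (s + 1) ^ e ∧
        finrank K (FF H Q J s) ≤ finrank K (H.gr (s + c)) + finrank K (HH G H J (s + c)) := by
  have hc := hc0.poly hθ
  obtain ⟨r, m, ⟨F⟩⟩ := exists_hframe hc hinj
  have hfdS := fd_S hfd hinj F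
  have : Module.IsTorsionFree A[X] S := Module.isTorsionFree_iff_algebraMap_injective.2 hinj
  have hθ0 : th A S ≠ 0 := by
    rw [th, Ne, map_eq_zero_iff _ hinj]
    exact X_ne_zero
  refine ⟨hfdS, ?_⟩
  have hD : 0 ≤ F.D := (polyGr G).nonneg F.f_ne F.f_mem
  obtain ⟨C2, hC2⟩ := S_steps hfd hb hfdS hc0 hc hθ F (F.L + 1).toNat
  set C1 : ℕ := ∑ k, F.D.toNat * ((F.D + F.dS k - 1).natAbs + 1) ^ e with hC1
  refine ⟨(shf F).natAbs + F.D'.natAbs + (F.L + 1).natAbs, C1 + C2, fun J hJ => ?_⟩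
  obtain ⟨hJh, hJp⟩ := hJ
  obtain ⟨N, g, hg, hdeg, hgN, hgJ⟩ := exists_g (G := G) hc hJh hJp
  have hH : ∀ d, FiniteDimensional K (HH G H J d) := fun d => fd_HH hfd hθ hg hgN hgJ F
  have hF : ∀ d, FiniteDimensional K (FF H Q J d) := fun d => fd_FF Q hinj hfdS hc hg hgN hgJ d
  refine ⟨hH, hF, fun s => ⟨?_, ?_⟩⟩
  · have h1 := finrank_gd (s := (s : ℤ)) hfd hθ hg hgN hgJ F
    have h2 : ∑ k, finrank K ((polyGr G).gr (del F s k)) ≤ C1 * (s + 1) ^ e +
        ∑ k, finrank K ((polyGr G).gr (del F s k - F.D)) := by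
      rw [hC1, Finset.sum_mul, ← Finset.sum_add_distrib]
      refine Finset.sum_le_sum fun k _ => ?_
      have h3 := finrank_poly hfd hb (del F s k) F.D.toNat
      rw [Int.toNat_of_nonneg hD] at h3
      refine h3.trans (Nat.add_le_add_right ?_ _)
      rw [mul_assoc, ← mul_pow]
      refine Nat.mul_le_mul_left _ (Nat.pow_le_pow_left ?_ e)
      have h4 := toNat_bound (F.D + F.dS k - 1) s
      have h5 : F.D + F.dS k - 1 + (s : ℤ) = del F s k := by rw [del]; ring
      rwa [h5] at h4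
    have h6 := lower (s := (s : ℤ)) Q hinj hfd hfdS hc hθ hg hgN hgJ F ((s : ℤ) - F.L - 1)
      (by rw [shf]; ring)
    have h7 := hC2 s
    have h8 : finrank K (H.gr ((s : ℤ) - ((F.L + 1).toNat : ℕ))) ≤
        finrank K (H.gr ((s : ℤ) - F.L - 1)) := by
      apply S_mono hfdS hθ hθ0
      have := Int.self_le_toNat (F.L + 1)
      omega
    have h9 : finrank K (FF H Q J (s + shf F)) ≤
        finrank K (FF H Q J (s + ((shf F).natAbs + F.D'.natAbs + (F.L + 1).natAbs : ℕ))) := by
      apply FF_mono Q hF hθ hθ0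
      omega
    rw [add_mul]
    omega
  · have h1 := upper Q hinj hfd hfdS hc hθ hJh hg hdeg hgN hgJ F s
    have h2 : finrank K (H.gr ((s : ℤ) + F.D')) ≤
        finrank K (H.gr ((s : ℤ) + ((shf F).natAbs + F.D'.natAbs + (F.L + 1).natAbs : ℕ))) := by
      apply S_mono hfdS hθ hθ0
      omega
    have h3 : finrank K (HH G H J ((s : ℤ) + F.L + 1)) ≤
        finrank K (HH G H J
          ((s : ℤ) + ((shf F).natAbs + F.D'.natAbs + (F.L + 1).natAbs : ℕ))) := by
      apply HH_mono hH ha0 hne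
      omega
    omega

/-- **The map from functionals to fractions**, uniform in `J`. -/
theorem main_struct (hfd : ∀ d, FiniteDimensional K (G.gr d)) {e : ℕ} (hb : Bd G e)
    (hc0 : Compat K G H) (hθ : th A S ∈ H.gr 1) (hinj : Function.Injective (algebraMap A[X] S))
    [Module.Finite A[X] S] :
    ∃ (c C : ℕ) (D : ℤ) (f : S), f ≠ 0 ∧ f ∈ H.gr D ∧ ∀ J : Ideal S, Adm A H J → ∀ s : ℕ,
      ∃ (Gd : Submodule K (HH G H J s)) (Ψ : HH G H J s →ₗ[K] Q),
        finrank K (HH G H J s) ≤ finrank K Gd + C * (s + 1) ^ e ∧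
        ∀ φ ∈ Gd, Ψ φ ∈ FF H Q J (s + c) ∧
          (∀ w, (∀ x, (φ : Fnl A S).f (w * x) = 0) →
            ∃ u, algebraMap S Q w * Ψ φ = algebraMap S Q u) ∧
          (∀ w u, algebraMap S Q w * Ψ φ = algebraMap S Q u →
            ∀ x, (φ : Fnl A S).f (f * (w * x)) = 0) ∧
          ∀ u, Ψ φ = algebraMap S Q (f * u) → φ = 0 := by
  have hc := hc0.poly hθ
  obtain ⟨r, m, ⟨F⟩⟩ := exists_hframe hc hinj
  have : Module.IsTorsionFree A[X] S := Module.isTorsionFree_iff_algebraMap_injective.2 hinj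
  have hθ0 : th A S ≠ 0 := by
    rw [th, Ne, map_eq_zero_iff _ hinj]
    exact X_ne_zero
  have hD : 0 ≤ F.D := (polyGr G).nonneg F.f_ne F.f_mem
  set C1 : ℕ := ∑ k, F.D.toNat * ((F.D + F.dS k - 1).natAbs + 1) ^ e with hC1
  obtain ⟨k, c, hkc⟩ : ∃ k c : ℕ, (c : ℤ) = shf F + k :=
    ⟨(shf F).natAbs, (shf F + (shf F).natAbs).toNat, by omega⟩
  have h0 : algebraMap S Q (th A S ^ k) ≠ 0 := by
    rw [Ne, FaithfulSMul.algebraMap_eq_zero_iff]
    exact pow_ne_zero k hθ0
  have hf' : algebraMap A[X] S F.f' ∈ H.gr F.D' := by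
    have := hc F.f'_mem H.one_mem
    rwa [Algebra.smul_def, mul_one, add_zero] at this
  refine ⟨c, C1, F.D' + k * 1, algebraMap A[X] S F.f' * th A S ^ k, ?_,
    H.mul_mem hf' (H.pow_mem hθ k), fun J hJ s => ?_⟩
  · refine mul_ne_zero ?_ (pow_ne_zero k hθ0)
    rw [Ne, map_eq_zero_iff _ hinj]
    exact F.f'_ne
  obtain ⟨hJh, hJp⟩ := hJ
  obtain ⟨N, g, hg, hdeg, hgN, hgJ⟩ := exists_g (G := G) hc hJh hJp
  let Ψ : HH G H J s →ₗ[K] Q := (LinearMap.mulLeft K (algebraMap S Q (th A S ^ k))).comp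
    (Psi Q g F J s)
  have hΨ : ∀ φ, Ψ φ = algebraMap S Q (th A S ^ k) * Psi Q g F J s φ := fun φ => rfl
  refine ⟨gd g F J s, Ψ, ?_, fun φ hφ => ⟨?_, fun w hw => ?_, fun w u hw x => ?_,
    fun u hu => ?_⟩⟩
  · have h1 := finrank_gd (s := (s : ℤ)) hfd hθ hg hgN hgJ F
    have h2 : ∑ k, finrank K ((polyGr G).gr (del F s k)) ≤ C1 * (s + 1) ^ e +
        ∑ k, finrank K ((polyGr G).gr (del F s k - F.D)) := by
      rw [hC1, Finset.sum_mul, ← Finset.sum_add_distrib]
      refine Finset.sum_le_sum fun k _ => ?_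
      have h3 := finrank_poly hfd hb (del F s k) F.D.toNat
      rw [Int.toNat_of_nonneg hD] at h3
      refine h3.trans (Nat.add_le_add_right ?_ _)
      rw [mul_assoc, ← mul_pow]
      refine Nat.mul_le_mul_left _ (Nat.pow_le_pow_left ?_ e)
      have h4 := toNat_bound (F.D + F.dS k - 1) s
      have h5 : F.D + F.dS k - 1 + (s : ℤ) = del F s k := by rw [del]; ring
      rwa [h5] at h4
    omega
  · intro n j hj hn
    obtain ⟨y, hy, hy'⟩ := Psi_mem Q hinj hc hθ hg hgN hgJ hφ n j hj hn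
    refine ⟨th A S ^ k * y, ?_, ?_⟩
    · have := H.mul_mem (H.pow_mem hθ k) hy
      have e1 : (k : ℤ) * 1 + (n + (s + shf F)) = n + (s + c) := by rw [hkc]; ring
      rwa [e1] at this
    · rw [hΨ, map_mul, ← hy']
      ring
  · obtain ⟨u, hu⟩ := Psi_ann Q hinj hg hgJ hφ w hw
    refine ⟨th A S ^ k * u, ?_⟩
    rw [hΨ, map_mul, ← hu]
    ring
  · have h1 : algebraMap S Q (w * th A S ^ k) * Psi Q g F J s φ = algebraMap S Q u := by
      rw [← hw, hΨ, map_mul]
      ring
    have h2 := Psi_den Q hinj hg hgJ hφ _ _ h1 x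
    rw [Algebra.smul_def] at h2
    rw [← h2]
    congr 1
    ring
  · refine Psi_inj Q hinj hg hgJ hφ u ?_
    apply mul_left_cancel₀ h0
    rw [← hΨ, hu, Algebra.smul_def, ← map_mul]
    congr 1
    ring

end

end Pool.Agent.GMD
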