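import Pool.Agent.GMD.Graded

/-!
# GMD: existence of homogeneous frames
-/

set_option autoImplicit false

open Polynomial

namespace Pool.Agent.GMD

/-- a homogeneous frame -/
structure HFrame {K Z S : Type*} [Field K] [CommRing Z] [Algebra K Z] [CommRing S] [Algebra K S]
    [Algebra Z S] (G : Gr K Z) (H : Gr K S) (r m : ℕ) extends Frame Z S r m where
  dE : Fin r → ℤ
  dS : Fin m → ℤ
  D : ℤ
  D' : ℤ
  L : ℤ
  e_mem : ∀ i, e i ∈ H.gr (dE i)
  s_mem : ∀ k, s k ∈ H.gr (dS k)
  f_mem : f ∈ G.gr D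
  f'_mem : f' ∈ G.gr D'
  co_mem : ∀ i {n x}, x ∈ H.gr n → co i x ∈ G.gr (n + D - dE i)
  lam_mem : ∀ {n x}, x ∈ H.gr n → lam x ∈ G.gr (n + L)
  ep_mem : ∀ i, ep i ∈ H.gr (D' - L - dE i)

section

variable {K Z S : Type*} [Field K] [CommRing Z] [IsDomain Z] [Algebra K Z] [CommRing S]
  [IsDomain S] [Algebra K S] [Algebra Z S] {G : Gr K Z} {H : Gr K S}

omit [IsDomain Z] [IsDomain S] in
variable (H) in
theorem hom_gens [hfin : Module.Finite Z S] : ∃ (m : ℕ) (s : Fin m → S) (dS : Fin m → ℤ),
    (∀ k, s k ∈ H.gr (dS k)) ∧ Submodule.span Z (Set.range s) = ⊤ := by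
  classical
  set W : Set S := {x | ∃ d, x ∈ H.gr d} with hW
  have hspan : ∀ x : S, x ∈ Submodule.span Z W := by
    intro x
    induction x using H.induction with
    | hom d a ha => exact Submodule.subset_span ⟨d, ha⟩
    | add a b ha hb => exact Submodule.add_mem _ ha hb
  choose T hTW hT using fun x => Submodule.mem_span_finite_of_mem_span (hspan x)
  obtain ⟨T0, hT0⟩ := hfin.fg_top
  set T' := T0.biUnion T with hT'
  have hT'W : ∀ x ∈ T', ∃ d, x ∈ H.gr d := by
    intro x hx
    rw [hT', Finset.mem_biUnion] at hx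
    obtain ⟨t, _, hx⟩ := hx
    exact hTW t hx
  choose! dd hdd using hT'W
  refine ⟨T'.card, fun k => (T'.equivFin.symm k : S), fun k => dd (T'.equivFin.symm k : S),
    fun k => hdd _ (T'.equivFin.symm k).2, ?_⟩
  have h1 : Set.range (fun k => (T'.equivFin.symm k : S)) = (T' : Set S) := by
    ext x
    constructor
    · rintro ⟨k, rfl⟩
      exact (T'.equivFin.symm k).2
    · intro hx
      exact ⟨T'.equivFin ⟨x, hx⟩, by simp⟩
  rw [h1, eq_top_iff, ← hT0, Submodule.span_le]
  intro t ht
  refine Submodule.span_mono ?_ (hT t)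
  intro x hx
  exact Finset.mem_coe.2 (Finset.mem_biUnion.2 ⟨t, ht, hx⟩)

omit [IsDomain S] in
theorem exists_indep {m : ℕ} (s : Fin m → S) (dS : Fin m → ℤ) (hs : ∀ k, s k ∈ H.gr (dS k))
    (hspan : Submodule.span Z (Set.range s) = ⊤) :
    ∃ (r : ℕ) (e : Fin r → S) (dE : Fin r → ℤ), (∀ i, e i ∈ H.gr (dE i)) ∧
      LinearIndependent Z e ∧ ∃ f0 : Z, f0 ≠ 0 ∧ ∀ x, f0 • x ∈ Submodule.span Z (Set.range e) := by
  classical
  obtain ⟨I, hI, hmax⟩ := exists_maximal_linearIndepOn Z s
  have : Fintype I := Fintype.ofFinite I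
  let φ : Fin (Fintype.card I) ≃ I := (Fintype.equivFin I).symm
  refine ⟨Fintype.card I, fun i => s (φ i), fun i => dS (φ i), fun i => hs _, ?_, ?_⟩
  · exact LinearIndependent.comp hI φ φ.injective
  · have hr : Set.range (fun i => s (φ i)) = s '' I := by
      ext x
      constructor
      · rintro ⟨i, rfl⟩
        exact ⟨φ i, (φ i).2, rfl⟩
      · rintro ⟨i, hi, rfl⟩
        exact ⟨φ.symm ⟨i, hi⟩, by simp⟩
    have h1 : ∀ k, ∃ a : Z, a ≠ 0 ∧ a • s k ∈ Submodule.span Z (s '' I) := by
      intro k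
      by_cases hk : k ∈ I
      · exact ⟨1, one_ne_zero, by rw [one_smul]; exact Submodule.subset_span ⟨k, hk, rfl⟩⟩
      · exact hmax k hk
    choose a ha0 ha using h1
    refine ⟨∏ k, a k, Finset.prod_ne_zero_iff.2 fun k _ => ha0 k, ?_⟩
    intro x
    rw [hr]
    have hx : x ∈ Submodule.span Z (Set.range s) := by rw [hspan]; trivial
    induction hx using Submodule.span_induction with
    | mem x hx =>
      obtain ⟨k, rfl⟩ := hx
      rw [← Finset.prod_erase_mul _ _ (Finset.mem_univ k), mul_smul]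
      exact Submodule.smul_mem _ _ (ha k)
    | zero => rw [smul_zero]; exact Submodule.zero_mem _
    | add x y _ _ hx hy => rw [smul_add]; exact Submodule.add_mem _ hx hy
    | smul c x _ hx => rw [smul_comm]; exact Submodule.smul_mem _ _ hx

omit [IsDomain Z] [IsDomain S] in
/-- homogeneous elements of a graded span have homogeneous coordinates -/
theorem pr_span (hc : Compat K G H) {r : ℕ} (e : Fin r → S) (dE : Fin r → ℤ)
    (he : ∀ i, e i ∈ H.gr (dE i)) (c : Fin r → Z) (d : ℤ) :
    H.pr d (∑ i, c i • e i) = ∑ i, G.pr (d - dE i) (c i) • e i := by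
  rw [map_sum]
  refine Finset.sum_congr rfl fun i _ => ?_
  rw [← hc.pr_smul (he i), sub_add_cancel]

omit [IsDomain Z] [IsDomain S] in
theorem exists_mult (hc : Compat K G H) {r : ℕ} (e : Fin r → S) (dE : Fin r → ℤ)
    (he : ∀ i, e i ∈ H.gr (dE i)) {f0 : Z} (hf0 : f0 ≠ 0)
    (hf : ∀ x, f0 • x ∈ Submodule.span Z (Set.range e)) :
    ∃ (D : ℤ) (f : Z), f ≠ 0 ∧ f ∈ G.gr D ∧ ∀ x, f • x ∈ Submodule.span Z (Set.range e) := by
  obtain ⟨D, hD⟩ := G.exists_pr_ne hf0
  refine ⟨D, G.pr D f0, hD, G.pr_mem _ _, ?_⟩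
  intro x
  induction x using H.induction with
  | hom n x hx =>
    obtain ⟨c, hc'⟩ := (Submodule.mem_span_range_iff_exists_fun Z).1 (hf x)
    rw [← hc.pr_smul hx, ← hc', pr_span hc e dE he]
    exact Submodule.sum_mem _ fun i _ => Submodule.smul_mem _ _ (Submodule.subset_span ⟨i, rfl⟩)
  | add a b ha hb => rw [smul_add]; exact Submodule.add_mem _ ha hb

/-- coordinates -/
noncomputable def coo {r : ℕ} {e : Fin r → S} (hli : LinearIndependent Z e) (f : Z)
    (hf : ∀ x, f • x ∈ Submodule.span Z (Set.range e)) (i : Fin r) : S →ₗ[Z] Z :=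
  (Finsupp.lapply i).comp (hli.repr.comp
    (LinearMap.codRestrict (Submodule.span Z (Set.range e)) (LinearMap.lsmul Z S f) hf))

omit [IsDomain Z] [IsDomain S] in
theorem coo_sum {r : ℕ} {e : Fin r → S} (hli : LinearIndependent Z e) (f : Z)
    (hf : ∀ x, f • x ∈ Submodule.span Z (Set.range e)) (x : S) :
    f • x = ∑ i, coo hli f hf i x • e i := by
  have h := hli.linearCombination_repr ⟨f • x, hf x⟩
  rw [Finsupp.linearCombination_apply, Finsupp.sum_fintype] at h
  · exact h.symm
  · intro i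
    exact zero_smul Z (e i)

omit [IsDomain Z] [IsDomain S] in
theorem coo_unique {r : ℕ} {e : Fin r → S} (hli : LinearIndependent Z e) {c c' : Fin r → Z}
    (h : ∑ i, c i • e i = ∑ i, c' i • e i) (i : Fin r) : c i = c' i := by
  have h2 : ∑ i, (c i - c' i) • e i = 0 := by
    simp only [sub_smul, Finset.sum_sub_distrib, h, sub_self]
  exact sub_eq_zero.1 (Fintype.linearIndependent_iff.1 hli _ h2 i)

/-- **Existence of homogeneous frames** -/
theorem exists_hframe (hc : Compat K G H) (hinj : Function.Injective (algebraMap Z S))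
    [Module.Finite Z S] : ∃ r m : ℕ, Nonempty (HFrame G H r m) := by
  classical
  obtain ⟨m, s, dS, hs, hspan⟩ := hom_gens (Z := Z) H
  obtain ⟨r, e, dE, he, hli, f0, hf0, hf0'⟩ := exists_indep s dS hs hspan
  obtain ⟨D, f, hf, hfD, hf'⟩ := exists_mult hc e dE he hf0 hf0'
  have : Module.IsTorsionFree Z S :=
    Module.isTorsionFree_iff_algebraMap_injective.2 hinj
  set co := coo hli f hf' with hco
  have hcos : ∀ x, f • x = ∑ i, co i x • e i := coo_sum hli f hf'
  have hcom : ∀ i {n x}, x ∈ H.gr n → co i x ∈ G.gr (n + D - dE i) := by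
    intro i n x hx
    have h1 : f • x ∈ H.gr (D + n) := hc hfD hx
    have h2 : H.pr (D + n) (f • x) = f • x := H.pr_of_mem h1
    rw [hcos x, pr_span hc e dE he] at h2
    have h3 := coo_unique hli h2 i
    rw [← h3]
    have := G.pr_mem (D + n - dE i) (co i x)
    rwa [show n + D - dE i = D + n - dE i by ring]
  have hcoe : ∀ i j, co i (e j) = if i = j then f else 0 := by
    intro i j
    have h1 : ∑ i, co i (e j) • e i = ∑ i, (if i = j then f else 0) • e i := by
      rw [← hcos, Finset.sum_eq_single j]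
      · rw [if_pos rfl]
      · intro b _ hb
        rw [if_neg hb, zero_smul]
      · intro h
        exact absurd (Finset.mem_univ j) h
    exact coo_unique hli h1 i
  have hr : 0 < r := by
    by_contra h
    have h0 : r = 0 := by omega
    subst h0
    have := hcos 1
    rw [Finset.univ_eq_empty, Finset.sum_empty, smul_eq_zero] at this
    rcases this with h | h
    · exact hf h
    · exact one_ne_zero h
  let i0 : Fin r := ⟨0, hr⟩
  set lam := co i0 with hlam
  -- nondegeneracy
  have hnd : ∀ w : S, (∀ k, lam (w * e k) = 0) → w = 0 := by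
    intro w hw
    have h1 : ∀ x, lam (w * x) = 0 := by
      intro x
      have h2 : f * lam (w * x) = 0 := by
        rw [← smul_eq_mul, ← map_smul, ← mul_smul_comm, hcos, Finset.mul_sum, map_sum]
        refine Finset.sum_eq_zero fun i _ => ?_
        rw [mul_smul_comm, map_smul, hw, smul_zero]
      exact (mul_eq_zero.1 h2).resolve_left hf
    by_contra hw0
    have : Algebra.IsIntegral Z S := inferInstance
    obtain ⟨a, ha0, b, hb⟩ : ∃ a : Z, a ≠ 0 ∧ ∃ b : S, w * b = algebraMap Z S a := by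
      have hint : IsIntegral Z w := Algebra.IsIntegral.isIntegral w
      have h4 := Ideal.comap_ne_bot_of_integral_mem hw0 (Ideal.mem_span_singleton_self w) hint
      obtain ⟨a, ha, ha0⟩ := Submodule.exists_mem_ne_zero_of_ne_bot h4
      rw [Ideal.mem_comap, Ideal.mem_span_singleton] at ha
      obtain ⟨b, hb⟩ := ha
      exact ⟨a, ha0, b, hb.symm⟩
    have h3 := h1 (b * e i0)
    rw [← mul_assoc, hb, ← Algebra.smul_def, map_smul, hlam, hcoe, if_pos rfl, smul_eq_mul] at h3
    exact (mul_ne_zero ha0 hf) h3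
  -- the discriminant
  let M : Matrix (Fin r) (Fin r) Z := Matrix.of fun i j => lam (e i * e j)
  have hdet : M.det ≠ 0 := by
    intro h0
    obtain ⟨v, hv0, hv⟩ := Matrix.exists_mulVec_eq_zero_iff.2 h0
    have h1 : ∑ j, v j • e j = 0 := by
      apply hnd
      intro k
      have h2 := congrFun hv k
      rw [Matrix.mulVec, dotProduct] at h2
      simp only [M, Matrix.of_apply, Pi.zero_apply] at h2
      rw [Finset.sum_mul, map_sum, ← h2]
      refine Finset.sum_congr rfl fun j _ => ?_
      rw [smul_mul_assoc, map_smul, smul_eq_mul, mul_comm (e k), mul_comm]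
    exact hv0 (funext fun j => Fintype.linearIndependent_iff.1 hli _ h1 j)
  let ep0 : Fin r → S := fun i => ∑ k, M.adjugate i k • e k
  have hep0 : ∀ i j, lam (ep0 i * e j) = if i = j then M.det else 0 := by
    intro i j
    have h1 := congrFun (congrFun (Matrix.adjugate_mul M) i) j
    rw [Matrix.mul_apply, Matrix.smul_apply, Matrix.one_apply] at h1
    simp only [ep0]
    rw [Finset.sum_mul, map_sum]
    have h2 : ∀ k, lam (M.adjugate i k • e k * e j) = M.adjugate i k * M k j := by
      intro k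
      rw [smul_mul_assoc, map_smul, smul_eq_mul]
      rfl
    simp only [h2]
    rw [h1]
    split_ifs
    · rw [smul_eq_mul, mul_one]
    · rw [smul_zero]
  obtain ⟨D', hD'⟩ := G.exists_pr_ne hdet
  set f' := G.pr D' M.det with hf'def
  set L := D - dE i0 with hL
  have hlamm : ∀ {n x}, x ∈ H.gr n → lam x ∈ G.gr (n + L) := by
    intro n x hx
    have := hcom i0 hx
    rwa [show n + L = n + D - dE i0 by rw [hL]; ring]
  have hlampr : ∀ (d : ℤ) (x : S), lam (H.pr d x) = G.pr (d + L) (lam x) := by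
    intro d x
    induction x using H.induction with
    | hom n x hx =>
      by_cases h : n = d
      · rw [← h, H.pr_of_mem hx, G.pr_of_mem (hlamm hx)]
      · rw [H.pr_of_ne hx h, map_zero, G.pr_of_ne (hlamm hx) (by omega)]
    | add a b ha hb => rw [map_add, map_add, map_add, map_add, ha, hb]
  let ep : Fin r → S := fun i => H.pr (D' - L - dE i) (ep0 i)
  have hep : ∀ i j, lam (ep i * e j) = if i = j then f' else 0 := by
    intro i j
    simp only [ep]
    rw [← H.pr_mul (he j), hlampr, hep0]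
    by_cases h : i = j
    · rw [if_pos h, if_pos h, h, hf'def]
      congr 2
      ring
    · rw [if_neg h, if_neg h, map_zero]
  have hsum : ∀ w, f' • w = ∑ k, lam (w * e k) • ep k := by
    intro w
    rw [← sub_eq_zero]
    apply hnd
    intro j
    rw [sub_mul, map_sub, smul_mul_assoc, map_smul, Finset.sum_mul, map_sum,
      Finset.sum_eq_single j]
    · rw [smul_mul_assoc, map_smul, hep, if_pos rfl, smul_eq_mul, smul_eq_mul]
      ring
    · intro b _ hb
      rw [smul_mul_assoc, map_smul, hep, if_neg hb, smul_zero]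
    · intro h
      exact absurd (Finset.mem_univ j) h
  let F0 : Frame Z S r m :=
    ⟨e, s, f, co, lam, ep, f', hf, hD', hspan, hcos, hep, hsum⟩
  exact ⟨r, m, ⟨⟨F0, dE, dS, D, D', L, he, hs, hfD, G.pr_mem _ _, hcom, hlamm,
    fun i => H.pr_mem _ _⟩⟩⟩

end

end Pool.Agent.GMD
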