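import Pool.Agent.GMD.Core

/-!
# GMD: gradings
-/

set_option autoImplicit false

open Polynomial

namespace Pool.Agent.GMD

/-- a grading by integers, zero in negative degrees, with its projections -/
structure Gr (K R : Type*) [Field K] [CommRing R] [Algebra K R] where
  gr : ℤ → Submodule K R
  pr : ℤ → (R →ₗ[K] R)
  pr_mem : ∀ d a, pr d a ∈ gr d
  pr_of_mem : ∀ {d a}, a ∈ gr d → pr d a = a
  pr_of_ne : ∀ {d d' a}, a ∈ gr d → d ≠ d' → pr d' a = 0
  ext0 : ∀ a, (∀ d, pr d a = 0) → a = 0
  ind : ∀ (P : R → Prop) (_ : ∀ d a, a ∈ gr d → P a) (_ : ∀ a b, P a → P b → P (a + b)),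
    ∀ a, P a
  mul_mem : ∀ {i j a b}, a ∈ gr i → b ∈ gr j → a * b ∈ gr (i + j)
  one_mem : 1 ∈ gr 0
  neg : ∀ {d a}, d < 0 → a ∈ gr d → a = 0

section basics

variable {K R : Type*} [Field K] [CommRing R] [Algebra K R] (G : Gr K R)

theorem Gr.induction {P : R → Prop} (a : R) (hom : ∀ d a, a ∈ G.gr d → P a)
    (add : ∀ a b, P a → P b → P (a + b)) : P a := G.ind P hom add a

theorem Gr.pow_mem {a : R} {i : ℤ} (ha : a ∈ G.gr i) (n : ℕ) : a ^ n ∈ G.gr (n * i) := by
  induction n with
  | zero => simpa using G.one_mem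
  | succ n ih =>
    rw [pow_succ]
    have := G.mul_mem ih ha
    convert this using 2
    push_cast
    ring

theorem Gr.exists_pr_ne {a : R} (ha : a ≠ 0) : ∃ d : ℤ, G.pr d a ≠ 0 := by
  by_contra h
  push Not at h
  exact ha (G.ext0 a h)

theorem Gr.eq_of_pr {a b : R} (h : ∀ d, G.pr d a = G.pr d b) : a = b := by
  rw [← sub_eq_zero]
  apply G.ext0
  intro d
  rw [map_sub, h, sub_self]

theorem Gr.nonneg {a : R} (ha : a ≠ 0) {d : ℤ} (h : a ∈ G.gr d) : 0 ≤ d := by
  by_contra hd
  exact ha (G.neg (by omega) h)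

theorem Gr.degree_unique {a : R} (ha : a ≠ 0) {d d' : ℤ} (h : a ∈ G.gr d) (h' : a ∈ G.gr d') :
    d = d' := by
  by_contra hne
  apply ha
  rw [← G.pr_of_mem h', G.pr_of_ne h hne]

variable (K) in
/-- compatibility of the gradings with an algebra structure -/
def Compat {S : Type*} [CommRing S] [Algebra K S] [Algebra R S] (G : Gr K R) (H : Gr K S) : Prop :=
  ∀ ⦃i j : ℤ⦄ ⦃a : R⦄ ⦃x : S⦄, a ∈ G.gr i → x ∈ H.gr j → a • x ∈ H.gr (i + j)

variable {S : Type*} [CommRing S] [Algebra K S] [Algebra R S] {G} {H : Gr K S}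

theorem Compat.pr_smul (h : Compat K G H) {j : ℤ} {x : S} (hx : x ∈ H.gr j) (d : ℤ) (a : R) :
    H.pr (d + j) (a • x) = G.pr d a • x := by
  induction a using G.induction with
  | hom i a ha =>
    by_cases hi : i = d
    · rw [← hi, G.pr_of_mem ha, H.pr_of_mem (h ha hx)]
    · rw [G.pr_of_ne ha hi, H.pr_of_ne (h ha hx) (by omega), zero_smul]
  | add a b ha hb => rw [add_smul, map_add, map_add, add_smul, ha, hb]

theorem Gr.pr_mul (G : Gr K R) {j : ℤ} {x : R} (hx : x ∈ G.gr j) (d : ℤ) (a : R) :
    G.pr (d + j) (a * x) = G.pr d a * x := by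
  induction a using G.induction with
  | hom i a ha =>
    by_cases hi : i = d
    · rw [← hi, G.pr_of_mem ha, G.pr_of_mem (G.mul_mem ha hx)]
    · rw [G.pr_of_ne ha hi, G.pr_of_ne (G.mul_mem ha hx) (by omega), zero_mul]
  | add a b ha hb => rw [add_mul, map_add, map_add, add_mul, ha, hb]

theorem Compat.smul_pr (h : Compat K G H) {j : ℤ} {a : R} (ha : a ∈ G.gr j) (d : ℤ) (x : S) :
    H.pr (j + d) (a • x) = a • H.pr d x := by
  induction x using H.induction with
  | hom i x hx =>
    by_cases hi : i = d
    · rw [← hi, H.pr_of_mem hx, H.pr_of_mem (h ha hx)]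
    · rw [H.pr_of_ne hx hi, H.pr_of_ne (h ha hx) (by omega), smul_zero]
  | add a b ha hb => rw [smul_add, map_add, map_add, smul_add, ha, hb]

end basics

/-! ### polynomials -/

section poly

variable {K A : Type*} [Field K] [CommRing A] [Algebra K A] (G : Gr K A)

/-- forms of degree `d` in `A[X]` -/
def ZH (d : ℤ) : Submodule K A[X] where
  carrier := {p | ∀ i : ℕ, p.coeff i ∈ G.gr (d - i)}
  add_mem' := by
    intro p q hp hq i
    rw [coeff_add]
    exact Submodule.add_mem _ (hp i) (hq i)
  zero_mem' := by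
    intro i
    rw [coeff_zero]
    exact Submodule.zero_mem _
  smul_mem' := by
    intro c p hp i
    rw [coeff_smul]
    exact Submodule.smul_mem _ _ (hp i)

theorem mem_ZH {d : ℤ} {p : A[X]} : p ∈ ZH G d ↔ ∀ i : ℕ, p.coeff i ∈ G.gr (d - i) := Iff.rfl

/-- projection to the forms of degree `d` of `A[X]` -/
noncomputable def zproj (d : ℤ) : A[X] →ₗ[K] A[X] :=
  Polynomial.lsum fun i => ((monomial i).restrictScalars K).comp (G.pr (d - i))

theorem coeff_zproj (d : ℤ) (p : A[X]) (i : ℕ) :
    (zproj G d p).coeff i = G.pr (d - i) (p.coeff i) := by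
  rw [zproj, Polynomial.lsum_apply, Polynomial.sum_def, finsetSum_coeff]
  simp only [LinearMap.comp_apply, LinearMap.restrictScalars_apply, coeff_monomial]
  by_cases h : i ∈ p.support
  · rw [Finset.sum_eq_single i]
    · rw [if_pos rfl]
    · intro j _ hj
      rw [if_neg hj]
    · intro h'
      exact absurd h h'
  · rw [Finset.sum_eq_zero, notMem_support_iff.1 h, map_zero]
    intro j hj
    rw [if_neg]
    rintro rfl
    exact h hj

theorem monomial_mem {d : ℤ} {a : A} (ha : a ∈ G.gr d) (i : ℕ) :
    monomial i a ∈ ZH G (d + i) := by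
  intro j
  rw [coeff_monomial]
  split_ifs with h
  · rw [← h]
    have : d + (i : ℤ) - i = d := by ring
    rwa [this]
  · exact Submodule.zero_mem _

/-- the grading of `A[X]` with `X` of degree one -/
noncomputable def polyGr : Gr K A[X] where
  gr := ZH G
  pr := zproj G
  pr_mem := by
    intro d a i
    rw [coeff_zproj]
    exact G.pr_mem _ _
  pr_of_mem := by
    intro d a ha
    ext1 i
    rw [coeff_zproj]
    exact G.pr_of_mem (ha i)
  pr_of_ne := by
    intro d d' a ha hd
    ext1 i
    rw [coeff_zproj, coeff_zero]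
    exact G.pr_of_ne (ha i) (by omega)
  ext0 := by
    intro a ha
    ext1 i
    rw [coeff_zero]
    apply G.ext0
    intro d
    have := congrArg (fun q => coeff q i) (ha (d + i))
    simp only [coeff_zproj, coeff_zero] at this
    rwa [add_sub_cancel_right] at this
  ind := by
    intro P h0 hadd a
    induction a using Polynomial.induction_on' with
    | add p q hp hq => exact hadd p q hp hq
    | monomial i a =>
      induction a using G.induction with
      | hom d a ha => exact h0 (d + i) _ (monomial_mem G ha i)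
      | add a b ha hb =>
        rw [map_add]
        exact hadd _ _ ha hb
  mul_mem := by
    intro i j p q hp hq k
    rw [coeff_mul]
    apply Submodule.sum_mem
    rintro ⟨a, b⟩ hab
    rw [Finset.HasAntidiagonal.mem_antidiagonal] at hab
    simp only at hab
    have := G.mul_mem (hp a) (hq b)
    have h2 : i - (a : ℤ) + (j - b) = i + j - k := by
      rw [← hab]
      push_cast
      ring
    rwa [h2] at this
  one_mem := by
    intro i
    rw [coeff_one]
    split_ifs with h
    · rw [h]
      simpa using G.one_mem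
    · exact Submodule.zero_mem _
  neg := by
    intro d a hd ha
    ext1 i
    rw [coeff_zero]
    exact G.neg (by omega) (ha i)

variable {S : Type*} [CommRing S] [Algebra K S] [Algebra A S] [Algebra A[X] S]
  [IsScalarTower A A[X] S] {G} {H : Gr K S}

theorem Compat.poly (h : Compat K G H) (hθ : th A S ∈ H.gr 1) :
    Compat K (polyGr G) H := by
  intro i j p x hp hx
  rw [smul_eq_sum_th]
  apply Submodule.sum_mem
  intro l _
  have h1 : p.coeff l ∈ G.gr (i - l) := hp l
  have h2 := H.mul_mem (H.pow_mem hθ l) hx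
  have h3 := h h1 h2
  have h4 : i - (l : ℤ) + (l * 1 + j) = i + j := by ring
  rwa [h4] at h3

/-! degrees of `divX` and `cc` -/

theorem divX_iterate_mem {d : ℤ} {g : A[X]} (hg : g ∈ (polyGr G).gr d) (l : ℕ) :
    divX^[l] g ∈ (polyGr G).gr (d - l) := by
  intro i
  rw [coeff_divX_iterate]
  have := hg (i + l)
  push_cast at this
  have h2 : d - ((i : ℤ) + l) = d - l - i := by ring
  rwa [h2] at this

end poly

/-! ### gradings by natural numbers -/

section nat

variable {K : Type*} [Field K] {S : Type*} [CommRing S] [Algebra K S] (𝒮 : ℕ → Submodule K S)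

/-- integer degrees -/
def SZ (d : ℤ) : Submodule K S := if 0 ≤ d then 𝒮 d.toNat else ⊥

theorem SZ_coe (d : ℕ) : SZ 𝒮 d = 𝒮 d := by
  unfold SZ
  rw [if_pos (by omega)]
  simp

theorem SZ_neg {d : ℤ} (h : d < 0) : SZ 𝒮 d = ⊥ := by
  unfold SZ
  rw [if_neg (by omega)]

variable [GradedAlgebra 𝒮]

/-- projection to degree `d` -/
noncomputable def sproj (d : ℤ) : S →ₗ[K] S := if 0 ≤ d then GradedAlgebra.proj 𝒮 d.toNat else 0

/-- a grading by natural numbers gives one by integers -/
noncomputable def ofNat : Gr K S where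
  gr := SZ 𝒮
  pr := sproj 𝒮
  pr_mem := by
    intro d x
    unfold sproj SZ
    split_ifs with h
    · rw [GradedAlgebra.proj_apply]
      exact SetLike.coe_mem _
    · simp
  pr_of_mem := by
    intro d x hx
    unfold sproj
    unfold SZ at hx
    split_ifs with h
    · rw [if_pos h] at hx
      rw [GradedAlgebra.proj_apply, DirectSum.decompose_of_mem_same _ hx]
    · rw [if_neg h, Submodule.mem_bot] at hx
      rw [hx, map_zero]
  pr_of_ne := by
    intro d d' x hx hne
    rcases lt_or_ge d 0 with hd | hd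
    · rw [SZ_neg 𝒮 hd, Submodule.mem_bot] at hx
      rw [hx, map_zero]
    lift d to ℕ using hd
    rw [SZ_coe] at hx
    unfold sproj
    split_ifs with h
    · rw [GradedAlgebra.proj_apply, DirectSum.decompose_of_mem_ne _ hx (by omega)]
    · rw [LinearMap.zero_apply]
  ext0 := by
    classical
    intro a ha
    rw [← DirectSum.sum_support_decompose 𝒮 a]
    apply Finset.sum_eq_zero
    intro d _
    have := ha d
    unfold sproj at this
    rw [if_pos (by omega), GradedAlgebra.proj_apply] at this
    simpa using this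
  ind := by
    classical
    intro P h0 hadd x
    rw [← DirectSum.sum_support_decompose 𝒮 x]
    have hz : P 0 := h0 0 0 (Submodule.zero_mem _)
    induction (DirectSum.decompose 𝒮 x).support using Finset.induction_on with
    | empty => simpa using hz
    | insert a s ha ih =>
      rw [Finset.sum_insert ha]
      refine hadd _ _ (h0 a _ ?_) ih
      rw [SZ_coe]
      exact SetLike.coe_mem _
  mul_mem := by
    intro i j x y hx hy
    rcases lt_or_ge i 0 with hi | hi
    · rw [SZ_neg 𝒮 hi, Submodule.mem_bot] at hx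
      rw [hx, zero_mul]
      exact Submodule.zero_mem _
    rcases lt_or_ge j 0 with hj | hj
    · rw [SZ_neg 𝒮 hj, Submodule.mem_bot] at hy
      rw [hy, mul_zero]
      exact Submodule.zero_mem _
    lift i to ℕ using hi
    lift j to ℕ using hj
    rw [SZ_coe] at hx hy
    rw [← Nat.cast_add, SZ_coe]
    exact SetLike.mul_mem_graded hx hy
  one_mem := by
    have := SZ_coe 𝒮 0
    rw [Nat.cast_zero] at this
    rw [this]
    exact SetLike.one_mem_graded _
  neg := by
    intro d a hd ha
    rwa [SZ_neg 𝒮 hd, Submodule.mem_bot] at ha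

theorem ofNat_gr_coe (d : ℕ) : (ofNat 𝒮).gr d = 𝒮 d := SZ_coe 𝒮 d

end nat

/-! ### polynomial rings over a field -/

section mv

variable (K : Type*) [Field K] (n : ℕ)

/-- the standard grading of `K[X_0, …, X_(n-1)]` -/
noncomputable def mvGr : Gr K (MvPolynomial (Fin n) K) :=
  letI : GradedAlgebra (MvPolynomial.homogeneousSubmodule (Fin n) K) :=
    MvPolynomial.gradedAlgebra
  ofNat (MvPolynomial.homogeneousSubmodule (Fin n) K)

theorem mvGr_gr_coe (d : ℕ) : (mvGr K n).gr d = MvPolynomial.homogeneousSubmodule (Fin n) K d :=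
  SZ_coe (MvPolynomial.homogeneousSubmodule (Fin n) K) d

variable {K n} {S : Type*} [CommRing S] [Algebra K S] [Algebra (MvPolynomial (Fin n) K) S]
  [IsScalarTower K (MvPolynomial (Fin n) K) S] (H : Gr K S)

omit [IsScalarTower K (MvPolynomial (Fin n) K) S] in
theorem algebraMap_monomial_mem
    (hz : ∀ i, algebraMap (MvPolynomial (Fin n) K) S (MvPolynomial.X i) ∈ H.gr 1)
    (e : Fin n →₀ ℕ) :
    algebraMap (MvPolynomial (Fin n) K) S (MvPolynomial.monomial e 1) ∈ H.gr (e.degree : ℕ) := by
  induction e using Finsupp.induction_linear with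
  | zero =>
    have : (MvPolynomial.monomial (0 : Fin n →₀ ℕ) (1 : K)) = 1 := rfl
    rw [this, map_one, map_zero]
    exact H.one_mem
  | add e e' he he' =>
    have : (MvPolynomial.monomial (e + e') (1 : K)) =
        MvPolynomial.monomial e 1 * MvPolynomial.monomial e' 1 := by
      rw [MvPolynomial.monomial_mul, one_mul]
    rw [this, map_mul, map_add, Nat.cast_add]
    exact H.mul_mem he he'
  | single i k =>
    have : (MvPolynomial.monomial (Finsupp.single i k) (1 : K)) = MvPolynomial.X i ^ k := by
      rw [MvPolynomial.X_pow_eq_monomial]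
    rw [this, map_pow, Finsupp.degree_single]
    have := H.pow_mem (hz i) k
    simpa using this

theorem compat_mv
    (hz : ∀ i, algebraMap (MvPolynomial (Fin n) K) S (MvPolynomial.X i) ∈ H.gr 1) :
    Compat K (mvGr K n) H := by
  intro i j a x ha hx
  rcases lt_or_ge i 0 with hi | hi
  · have : a = 0 := (mvGr K n).neg hi ha
    rw [this, zero_smul]
    exact Submodule.zero_mem _
  lift i to ℕ using hi
  rw [mvGr_gr_coe, MvPolynomial.mem_homogeneousSubmodule] at ha
  rw [Algebra.smul_def, a.as_sum, map_sum, Finset.sum_mul]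
  apply Submodule.sum_mem
  intro e he
  have h1 : e.degree = i := by
    have := ha (MvPolynomial.mem_support_iff.1 he)
    rw [Finsupp.degree_eq_weight_one]
    exact this
  have h2 : MvPolynomial.monomial e (MvPolynomial.coeff e a) =
      (MvPolynomial.coeff e a) • (MvPolynomial.monomial e (1 : K)) := by
    rw [MvPolynomial.smul_monomial, smul_eq_mul, mul_one]
  have h3 : algebraMap (MvPolynomial (Fin n) K) S
      ((MvPolynomial.coeff e a) • (MvPolynomial.monomial e (1 : K))) =
      (MvPolynomial.coeff e a) • algebraMap (MvPolynomial (Fin n) K) S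
        (MvPolynomial.monomial e (1 : K)) := by
    rw [Algebra.smul_def, map_mul, ← IsScalarTower.algebraMap_apply, ← Algebra.smul_def]
  rw [h2, h3, smul_mul_assoc]
  apply Submodule.smul_mem
  rw [← h1]
  exact H.mul_mem (algebraMap_monomial_mem H hz e) hx

end mv

end Pool.Agent.GMD
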