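import Pool.Agent.GMD.Frame

/-!
# GMD: functionals and fractions, graded version
-/

set_option autoImplicit false

open Polynomial Module

namespace Pool.Agent.GMD

section fnl

variable (A S : Type*) [CommRing A] [CommRing S] [Algebra A S]

/-- the functionals `S → A` (a copy of `S →ₗ[A] A`) -/
def Fnl := S →ₗ[A] A

noncomputable instance : AddCommGroup (Fnl A S) := inferInstanceAs (AddCommGroup (S →ₗ[A] A))

noncomputable instance {K : Type*} [CommRing K] [Algebra K A] : Module K (Fnl A S) :=
  inferInstanceAs (Module K (S →ₗ[A] A))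

variable {A S}

/-- the underlying linear map -/
def Fnl.f (φ : Fnl A S) : S →ₗ[A] A := φ

theorem Fnl.f_add (φ ψ : Fnl A S) : (φ + ψ).f = φ.f + ψ.f := rfl

theorem Fnl.f_zero : (0 : Fnl A S).f = 0 := rfl

theorem Fnl.f_smul {K : Type*} [CommRing K] [Algebra K A] (c : K) (φ : Fnl A S) :
    (c • φ).f = c • φ.f := rfl

theorem Fnl.ext {φ ψ : Fnl A S} (h : ∀ x, φ.f x = ψ.f x) : φ = ψ := LinearMap.ext h

end fnl

section defs

variable {K A S : Type*} [Field K] [CommRing A] [Algebra K A] [CommRing S] [Algebra K S]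
  [Algebra A S] (G : Gr K A) (H : Gr K S)

/-- functionals of degree `s` killed by `J` -/
def HH (J : Ideal S) (s : ℤ) : Submodule K (Fnl A S) where
  carrier := {φ | (∀ n x, x ∈ H.gr n → φ.f x ∈ G.gr (n + s)) ∧ ∀ x ∈ J, φ.f x = 0}
  add_mem' := by
    rintro φ ψ ⟨h1, h2⟩ ⟨h3, h4⟩
    refine ⟨fun n x hx => ?_, fun x hx => ?_⟩
    · rw [Fnl.f_add, LinearMap.add_apply]
      exact Submodule.add_mem _ (h1 n x hx) (h3 n x hx)
    · rw [Fnl.f_add, LinearMap.add_apply, h2 x hx, h4 x hx, add_zero]
  zero_mem' := ⟨fun n x _ => Submodule.zero_mem _, fun x _ => rfl⟩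
  smul_mem' := by
    rintro c φ ⟨h1, h2⟩
    refine ⟨fun n x hx => ?_, fun x hx => ?_⟩
    · rw [Fnl.f_smul, LinearMap.smul_apply]
      exact Submodule.smul_mem _ _ (h1 n x hx)
    · rw [Fnl.f_smul, LinearMap.smul_apply, h2 x hx, smul_zero]

variable (L : Type*) [Field L] [Algebra S L] [Algebra K L] [IsScalarTower K S L]

/-- homogeneous fractions `b` of degree `d` with `J b ⊆ S` -/
def FF (J : Ideal S) (d : ℤ) : Submodule K L where
  carrier := {b | ∀ n j, j ∈ J → j ∈ H.gr n → ∃ x ∈ H.gr (n + d),
    algebraMap S L j * b = algebraMap S L x}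
  add_mem' := by
    intro a b ha hb n j hj hn
    obtain ⟨x, hx, hx'⟩ := ha n j hj hn
    obtain ⟨y, hy, hy'⟩ := hb n j hj hn
    exact ⟨x + y, Submodule.add_mem _ hx hy, by rw [mul_add, hx', hy', map_add]⟩
  zero_mem' := by
    intro n j _ _
    exact ⟨0, Submodule.zero_mem _, by rw [mul_zero, map_zero]⟩
  smul_mem' := by
    intro c a ha n j hj hn
    obtain ⟨x, hx, hx'⟩ := ha n j hj hn
    refine ⟨c • x, Submodule.smul_mem _ _ hx, ?_⟩
    rw [mul_smul_comm, hx', Algebra.smul_def, Algebra.smul_def, map_mul,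
      ← IsScalarTower.algebraMap_apply]

end defs

/-! ### dimensions of the forms in `A[X]` -/

section dim

variable {K A : Type*} [Field K] [CommRing A] [Algebra K A] (G : Gr K A)

/-- `p ↦ (p(0), (p - p(0)) / X)` -/
noncomputable def splitX (d : ℤ) : (polyGr G).gr d →ₗ[K] G.gr d × (polyGr G).gr (d - 1) where
  toFun p := (⟨(p : A[X]).coeff 0, by simpa using p.2 0⟩,
    ⟨divX (p : A[X]), by
      have := divX_iterate_mem (G := G) p.2 1
      simpa using this⟩)
  map_add' := by
    intro p q
    ext
    · simp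
    · simp
  map_smul' := by
    intro c p
    ext
    · simp
    · rename_i i
      simp only [Submodule.coe_smul, RingHom.id_apply, Prod.smul_snd, coeff_divX, coeff_smul]

theorem splitX_injective (d : ℤ) : Function.Injective (splitX G d) := by
  rw [← LinearMap.ker_eq_bot, LinearMap.ker_eq_bot']
  intro p hp
  have h1 : (p : A[X]).coeff 0 = 0 := congrArg (fun t => (t.1 : A)) hp
  have h2 : divX (p : A[X]) = 0 := congrArg (fun t => (t.2 : A[X])) hp
  apply Subtype.ext
  have := divX_mul_X_add (p : A[X])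
  rw [h1, h2, zero_mul, map_zero, add_zero] at this
  exact this.symm

variable {G}

theorem fd_poly (hfd : ∀ d, FiniteDimensional K (G.gr d)) (d : ℤ) :
    FiniteDimensional K ((polyGr G).gr d) := by
  have main : ∀ n : ℕ, ∀ d : ℤ, d ≤ n → FiniteDimensional K ((polyGr G).gr d) := by
    intro n
    induction n with
    | zero =>
      intro d hd
      have h1 : (polyGr G).gr (d - 1) = ⊥ := by
        rw [eq_bot_iff]
        intro x hx
        exact (polyGr G).neg (by push_cast at hd; omega) hx
      have h2 := hfd d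
      have h3 : FiniteDimensional K ((polyGr G).gr (d - 1)) := by
        rw [h1]
        infer_instance
      exact FiniteDimensional.of_injective _ (splitX_injective G d)
    | succ n ih =>
      intro d hd
      have h3 := ih (d - 1) (by push_cast at hd; omega)
      have h2 := hfd d
      exact FiniteDimensional.of_injective _ (splitX_injective G d)
  exact main d.toNat d (Int.self_le_toNat d)

theorem finrank_poly_step (hfd : ∀ d, FiniteDimensional K (G.gr d)) (d : ℤ) :
    finrank K ((polyGr G).gr d) ≤ finrank K (G.gr d) + finrank K ((polyGr G).gr (d - 1)) := by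
  have h1 := fd_poly hfd (d - 1)
  have h2 := hfd d
  rw [← finrank_prod]
  exact LinearMap.finrank_le_finrank_of_injective (splitX_injective G d)

/-- the growth bound of the forms of `A` -/
def Bd (G : Gr K A) (e : ℕ) : Prop := ∀ d : ℤ, finrank K (G.gr d) ≤ (d.toNat + 1) ^ e

theorem finrank_poly (hfd : ∀ d, FiniteDimensional K (G.gr d)) {e : ℕ} (hb : Bd G e) (d : ℤ)
    (D : ℕ) : finrank K ((polyGr G).gr d) ≤
      D * (d.toNat + 1) ^ e + finrank K ((polyGr G).gr (d - D)) := by
  induction D with
  | zero => rw [zero_mul, zero_add, Nat.cast_zero, sub_zero]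
  | succ D ih =>
    refine ih.trans ?_
    have h1 := finrank_poly_step hfd (d - D)
    have h2 := hb (d - D)
    have h3 : ((d - D).toNat + 1) ^ e ≤ (d.toNat + 1) ^ e :=
      Nat.pow_le_pow_left (by omega) e
    have h4 : d - (D : ℤ) - 1 = d - ((D + 1 : ℕ) : ℤ) := by push_cast; ring
    rw [h4] at h1
    rw [add_mul, one_mul]
    omega

end dim

end Pool.Agent.GMD
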