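import Pool.Agent.GMD.Std

/-!
# GMD: the structural form of the comparison (functionals and their annihilators)
-/

set_option autoImplicit false

open Polynomial Module

namespace Pool.Agent.GMD

variable {K : Type*} [Field K] {n : ℕ} {S : Type*} [CommRing S] [IsDomain S] [Algebra K S]
  [Algebra (MvPolynomial (Fin (n + 1)) K) S] [IsScalarTower K (MvPolynomial (Fin (n + 1)) K) S]
  (𝒮 : ℕ → Submodule K S) [GradedAlgebra 𝒮]

/-- **Theorem GMD, structural form.**  A subspace `Gd` of codimension `≤ C (s+1)^n` of the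
functionals killed by `J`, of degree `s`, is embedded by `Ψ` into the fractions `b` of degree
`s + c` with `J b ⊆ S`, and the annihilator of `φ` is the ideal of denominators of `Ψ φ` up to the
fixed element `f`. -/
theorem gmd_struct (hz : ∀ i, algebraMap (MvPolynomial (Fin (n + 1)) K) S (MvPolynomial.X i) ∈ 𝒮 1)
    (θ : S) (hθ : θ ∈ 𝒮 1)
    (hinj : Function.Injective (Polynomial.aeval θ :
      (MvPolynomial (Fin (n + 1)) K)[X] →ₐ[MvPolynomial (Fin (n + 1)) K] S))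
    (hfin : (Polynomial.aeval θ :
      (MvPolynomial (Fin (n + 1)) K)[X] →ₐ[MvPolynomial (Fin (n + 1)) K] S).toRingHom.Finite)
    (Q : Type*) [Field Q] [Algebra S Q] [IsFractionRing S Q] [Algebra K Q]
    [IsScalarTower K S Q] :
    ∃ (c C D : ℕ) (f : S), f ≠ 0 ∧ f ∈ 𝒮 D ∧ ∀ J : Ideal S, J.IsHomogeneous 𝒮 →
      Module.Finite (MvPolynomial (Fin (n + 1)) K) (S ⧸ J) → ∀ s : ℕ,
      ∃ (Gd : Submodule K (HHm (n := n) 𝒮 J s)) (Ψ : HHm (n := n) 𝒮 J s →ₗ[K] Q),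
        finrank K (HHm (n := n) 𝒮 J s) ≤ finrank K Gd + C * (s + 1) ^ n ∧
        ∀ φ ∈ Gd, Ψ φ ∈ FFm 𝒮 Q J (s + c) ∧
          (∀ w, (∀ x, (φ : S →ₗ[MvPolynomial (Fin (n + 1)) K] MvPolynomial (Fin (n + 1)) K)
            (w * x) = 0) → ∃ u, algebraMap S Q w * Ψ φ = algebraMap S Q u) ∧
          (∀ w u, algebraMap S Q w * Ψ φ = algebraMap S Q u →
            ∀ x, (φ : S →ₗ[MvPolynomial (Fin (n + 1)) K] MvPolynomial (Fin (n + 1)) K)
              (f * (w * x)) = 0) ∧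
          ∀ u, Ψ φ = algebraMap S Q (f * u) → φ = 0 := by
  let _ : Algebra (MvPolynomial (Fin (n + 1)) K)[X] S := (Polynomial.aeval θ :
      (MvPolynomial (Fin (n + 1)) K)[X] →ₐ[MvPolynomial (Fin (n + 1)) K] S).toRingHom.toAlgebra
  have hmap : ∀ p : (MvPolynomial (Fin (n + 1)) K)[X],
      algebraMap (MvPolynomial (Fin (n + 1)) K)[X] S p = Polynomial.aeval θ p := fun p => rfl
  have : IsScalarTower (MvPolynomial (Fin (n + 1)) K) (MvPolynomial (Fin (n + 1)) K)[X] S := by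
    refine IsScalarTower.of_algebraMap_eq fun a => ?_
    rw [hmap, Polynomial.algebraMap_eq, Polynomial.aeval_C]
  have hth : th (MvPolynomial (Fin (n + 1)) K) S = θ := by
    rw [th, hmap, Polynomial.aeval_X]
  have : Module.Finite (MvPolynomial (Fin (n + 1)) K)[X] S := hfin
  have hc0 : Compat K (mvGr K (n + 1)) (ofNat 𝒮) := by
    apply compat_mv
    intro i
    have := hz i
    rw [← ofNat_gr_coe 𝒮 1] at this
    exact this
  have hth1 : th (MvPolynomial (Fin (n + 1)) K) S ∈ (ofNat 𝒮).gr 1 := by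
    rw [hth]
    have := hθ
    rw [← ofNat_gr_coe 𝒮 1] at this
    exact this
  obtain ⟨c, C, D, f, hf, hfD, h2⟩ := main_struct (A := MvPolynomial (Fin (n + 1)) K) (S := S)
    (G := mvGr K (n + 1)) (H := ofNat 𝒮) Q (mv_fd K n) (mv_bd K n) hc0 hth1 hinj
  have hD : 0 ≤ D := (ofNat 𝒮).nonneg hf hfD
  lift D to ℕ using hD
  rw [ofNat_gr_coe] at hfD
  refine ⟨c, C, D, f, hf, hfD, fun J hJh hJf s => ?_⟩
  obtain ⟨p, hp, hp'⟩ := monic_of θ J hJf
  obtain ⟨Gd, Ψ, hG, hΨ⟩ := h2 J ⟨isHomG_of 𝒮 J hJh, p, hp, hp'⟩ s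
  refine ⟨Gd.map (HH_equiv (n := n) 𝒮 J s).toLinearMap,
    Ψ.comp (HH_equiv (n := n) 𝒮 J s).symm.toLinearMap, ?_, ?_⟩
  · rw [← (HH_equiv (n := n) 𝒮 J (s : ℤ)).finrank_eq]
    have h3 : finrank K (Gd.map (HH_equiv (n := n) 𝒮 J (s : ℤ)).toLinearMap) = finrank K Gd :=
      LinearEquiv.finrank_map_eq (HH_equiv (n := n) 𝒮 J (s : ℤ)) Gd
    rw [h3]
    exact hG
  · rintro _ ⟨φ, hφ, rfl⟩
    obtain ⟨k1, k2, k3, k4⟩ := hΨ φ hφ
    have e : (Ψ.comp (HH_equiv (n := n) 𝒮 J s).symm.toLinearMap)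
        ((HH_equiv (n := n) 𝒮 J s).toLinearMap φ) = Ψ φ := by
      rw [LinearMap.comp_apply]
      exact congrArg Ψ ((HH_equiv (n := n) 𝒮 J s).symm_apply_apply φ)
    rw [e]
    refine ⟨?_, k2, k3, fun u hu => ?_⟩
    · rw [← Nat.cast_add, FF_eq] at k1
      exact k1
    · rw [k4 u hu, map_zero]

end Pool.Agent.GMD
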