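import Pool.Agent.GMD.Main

/-!
# GMD: the map from functionals to fractions
-/

set_option autoImplicit false

open Polynomial Module

namespace Pool.Agent.GMD

section lemmas

variable {K R : Type*} [Field K] [CommRing R] [Algebra K R] (G : Gr K R)

theorem Gr.mem_of_mul [IsDomain R] {a b : R} {i j : ℤ} (ha0 : a ≠ 0) (ha : a ∈ G.gr i)
    (h : a * b ∈ G.gr (i + j)) : b ∈ G.gr j := by
  have h1 := G.pr_mul ha j b
  rw [mul_comm b, add_comm j, G.pr_of_mem h, mul_comm _ a] at h1
  rw [mul_left_cancel₀ ha0 h1]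
  exact G.pr_mem _ _

theorem Compat.mem_of_smul {S : Type*} [CommRing S] [Algebra K S] [Algebra R S]
    [IsDomain R] [Module.IsTorsionFree R S] {G : Gr K R} {H : Gr K S} (hc : Compat K G H)
    {a : R} {x : S} {i j : ℤ} (ha0 : a ≠ 0) (ha : a ∈ G.gr i)
    (h : a • x ∈ H.gr (i + j)) : x ∈ H.gr j := by
  have h1 := hc.smul_pr ha j x
  rw [H.pr_of_mem h] at h1
  rw [smul_right_injective S ha0 h1]
  exact H.pr_mem _ _

theorem smul_mem_poly {a : R} {p : R[X]} {i j : ℤ} (ha : a ∈ G.gr i) (hp : p ∈ (polyGr G).gr j) :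
    a • p ∈ (polyGr G).gr (i + j) := by
  intro k
  rw [coeff_smul, smul_eq_mul]
  have := G.mul_mem ha (hp k)
  rwa [show i + (j - (k : ℤ)) = i + j - k by ring] at this

/-- linear algebra -/
theorem finrank_comap {M N P P' : Type*} [AddCommGroup M] [Module K M] [FiniteDimensional K M]
    [AddCommGroup N] [Module K N] [AddCommGroup P] [Module K P] [FiniteDimensional K P]
    [AddCommGroup P'] [Module K P'] (T : M →ₗ[K] N) (j : P →ₗ[K] N) (hj : Function.Injective j)
    (ι : P' →ₗ[K] P) (hι : Function.Injective ι) (hT : ∀ x, T x ∈ LinearMap.range j) :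
    finrank K M + finrank K P' ≤
      finrank K ((LinearMap.range (j.comp ι)).comap T) + finrank K P := by
  let T' : M →ₗ[K] LinearMap.range j := T.codRestrict _ hT
  let e := LinearEquiv.ofInjective j hj
  let T'' : M →ₗ[K] P := e.symm.toLinearMap.comp T'
  have hT'' : ∀ x, j (T'' x) = T x := by
    intro x
    have h1 : e (T'' x) = T' x := by
      show e (e.symm (T' x)) = _
      rw [LinearEquiv.apply_symm_apply]
    exact congrArg Subtype.val h1
  let Q : M →ₗ[K] P ⧸ LinearMap.range ι := (LinearMap.range ι).mkQ.comp T''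
  have hker : LinearMap.ker Q = (LinearMap.range (j.comp ι)).comap T := by
    ext x
    rw [LinearMap.mem_ker, LinearMap.comp_apply, Submodule.mkQ_apply,
      Submodule.Quotient.mk_eq_zero, Submodule.mem_comap, LinearMap.mem_range, LinearMap.mem_range]
    constructor
    · rintro ⟨y, hy⟩
      exact ⟨y, by rw [LinearMap.comp_apply, hy, hT'']⟩
    · rintro ⟨y, hy⟩
      refine ⟨y, hj ?_⟩
      rw [LinearMap.comp_apply] at hy
      rw [hy, hT'']
  have h1 := LinearMap.finrank_range_add_finrank_ker Q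
  have h2 := Submodule.finrank_le (LinearMap.range Q)
  have h3 := Submodule.finrank_quotient_add_finrank (LinearMap.range ι)
  have h4 := LinearMap.finrank_range_of_inj hι
  rw [hker] at h1
  omega

end lemmas

section main

variable {K A S : Type*} [Field K] [CommRing A] [IsDomain A] [Algebra K A] [CommRing S]
  [IsDomain S] [Algebra K S] [Algebra A S] [Algebra A[X] S] [IsScalarTower A A[X] S]
  [IsScalarTower K A S] {G : Gr K A} {H : Gr K S} {J : Ideal S} {s N : ℤ} {g : A[X]}

omit [IsDomain A] [IsDomain S] [IsScalarTower K A S] in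
theorem cc_mem (hθ : th A S ∈ H.gr 1) {φ : Fnl A S} (hφ : φ ∈ HH G H J s)
    (hg : g ∈ (polyGr G).gr N) {d : ℤ} {x : S} (hx : x ∈ H.gr d) :
    cc g φ.f x ∈ (polyGr G).gr (d + s + N - 1) := by
  rw [cc_apply]
  apply Submodule.sum_mem
  intro l _
  have h1 := hφ.1 _ _ (H.mul_mem (H.pow_mem hθ l) hx)
  have h2 := smul_mem_poly G h1 (divX_iterate_mem hg (l + 1))
  have h3 : (l : ℤ) * 1 + d + s + (N - ((l + 1 : ℕ) : ℤ)) = d + s + N - 1 := by
    push_cast
    ring
  rwa [h3] at h2

omit [IsDomain A] [IsDomain S] [IsScalarTower K A S] [IsScalarTower A A[X] S] in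
theorem kill_g (hgJ : algebraMap A[X] S g ∈ J) {φ : Fnl A S} (hφ : φ ∈ HH G H J s) (x : S) :
    φ.f (g • x) = 0 := by
  apply hφ.2
  rw [Algebra.smul_def]
  exact J.mul_mem_right _ hgJ

omit [IsDomain A] [IsDomain S] [IsScalarTower K A S] in
theorem cc_smulK (c : K) (φ : S →ₗ[A] A) (x : S) : cc g (c • φ) x = c • cc g φ x := by
  rw [cc_apply, cc_apply, Finset.smul_sum]
  refine Finset.sum_congr rfl fun l _ => ?_
  rw [LinearMap.smul_apply, smul_assoc]

variable {r m : ℕ} (F : HFrame (polyGr G) H r m)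

/-- degrees of the obstructions -/
def del (F : HFrame (polyGr G) H r m) (s : ℤ) (k : Fin m) : ℤ := F.D + F.dS k + s - 1

omit [IsDomain A] [IsDomain S] [IsScalarTower K A S] in
theorem ob_mem (hθ : th A S ∈ H.gr 1) {φ : Fnl A S} (hφ : φ ∈ HH G H J s)
    (hg : g ∈ (polyGr G).gr N) (k : Fin m) :
    ob F.toFrame g φ.f k ∈ (polyGr G).gr (N + del F s k) := by
  unfold ob del
  refine Submodule.sub_mem _ ?_ (Submodule.sum_mem _ fun i _ => ?_)
  · have := (polyGr G).mul_mem F.f_mem (cc_mem hθ hφ hg (F.s_mem k))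
    convert this using 2
    ring
  · have := (polyGr G).mul_mem (F.co_mem i (F.s_mem k)) (cc_mem hθ hφ hg (F.e_mem i))
    convert this using 2
    ring

omit [IsDomain S] [IsScalarTower K A S] in
/-- the spaces of functionals are finite dimensional -/
theorem fd_HH (hfd : ∀ d, FiniteDimensional K (G.gr d)) (hθ : th A S ∈ H.gr 1)
    (hg : g.Monic) (hgN : g ∈ (polyGr G).gr N) (hgJ : algebraMap A[X] S g ∈ J)
    (F : HFrame (polyGr G) H r m) : FiniteDimensional K (HH G H J s) := by
  have h1 : ∀ d, FiniteDimensional K ((polyGr G).gr d) := fd_poly hfd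
  let T : HH G H J s →ₗ[K] (∀ k : Fin m, (polyGr G).gr (F.dS k + s + N - 1)) :=
    { toFun := fun φ k => ⟨cc g (φ : Fnl A S).f (F.s k), cc_mem hθ φ.2 hgN (F.s_mem k)⟩
      map_add' := by
        intro φ ψ
        funext k
        exact Subtype.ext (cc_add g _ _ _)
      map_smul' := by
        intro c φ
        funext k
        exact Subtype.ext (cc_smulK c _ _) }
  refine FiniteDimensional.of_injective T ((injective_iff_map_eq_zero T).2 ?_)
  intro φ hφ
  have h2 : ∀ k, cc g (φ : Fnl A S).f (F.s k) = 0 := fun k =>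
    congrArg Subtype.val (congrFun hφ k)
  have hk := kill_g hgJ φ.2
  have h3 : ∀ x : S, g ∣ cc g (φ : Fnl A S).f x := by
    intro x
    have hx : x ∈ Submodule.span A[X] (Set.range F.s) := by rw [F.span_s]; trivial
    induction hx using Submodule.span_induction with
    | mem x hx =>
      obtain ⟨k, rfl⟩ := hx
      rw [h2]
      exact dvd_zero _
    | zero => rw [map_zero]; exact dvd_zero _
    | add x y _ _ hx hy => rw [map_add]; exact dvd_add hx hy
    | smul p x _ hx =>
      have := dvd_add (dvd_cc g _ hk p x) (Dvd.dvd.mul_left hx p)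
      rwa [sub_add_cancel] at this
  exact Subtype.ext (Fnl.ext fun x => phi_eq_zero_of_dvd g hg _ hk x (h3 x))

/-- the obstruction map -/
noncomputable def obm (g : A[X]) (F : HFrame (polyGr G) H r m) (J : Ideal S) (s : ℤ) :
    HH G H J s →ₗ[K] (Fin m → A[X]) where
  toFun φ k := ob F.toFrame g (φ : Fnl A S).f k
  map_add' := by
    intro φ ψ
    funext k
    simp only [ob, Submodule.coe_add, Fnl.f_add, cc_add, mul_add, Finset.sum_add_distrib,
      Pi.add_apply]
    ring
  map_smul' := by
    intro c φ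
    funext k
    simp only [ob, Submodule.coe_smul, Fnl.f_smul, cc_smulK, mul_smul_comm, RingHom.id_apply,
      Pi.smul_apply, smul_sub, Finset.smul_sum]

/-- multiplication of tuples of forms -/
noncomputable def mulT (p : A[X]) {a b : Fin m → ℤ}
    (h : ∀ k, ∀ x ∈ (polyGr G).gr (a k), p * x ∈ (polyGr G).gr (b k)) :
    (∀ k, (polyGr G).gr (a k)) →ₗ[K] (∀ k, (polyGr G).gr (b k)) where
  toFun c k := ⟨p * (c k : A[X]), h k _ (c k).2⟩
  map_add' := by
    intro c c'
    funext k
    exact Subtype.ext (mul_add _ _ _)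
  map_smul' := by
    intro t c
    funext k
    exact Subtype.ext (mul_smul_comm _ _ _)

/-- multiplication of tuples of forms -/
noncomputable def mulN (p : A[X]) (G : Gr K A) (a : Fin m → ℤ) :
    (∀ k, (polyGr G).gr (a k)) →ₗ[K] (Fin m → A[X]) where
  toFun c k := p * (c k : A[X])
  map_add' := by
    intro c c'
    funext k
    exact mul_add _ _ _
  map_smul' := by
    intro t c
    funext k
    exact mul_smul_comm _ _ _

/-- the good functionals -/
noncomputable def gd (g : A[X]) (F : HFrame (polyGr G) H r m) (J : Ideal S) (s : ℤ) :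
    Submodule K (HH G H J s) :=
  (LinearMap.range ((mulN g G (del F s)).comp
    (mulT F.f (a := fun k => del F s k - F.D) (b := del F s) (fun k x hx => by
      have := (polyGr G).mul_mem F.f_mem hx
      rwa [add_sub_cancel] at this)))).comap (obm g F J s)

omit [IsDomain A] [IsDomain S] [IsScalarTower K A S] in
theorem good_of_mem {φ : HH G H J s} (hφ : φ ∈ gd g F J s) :
    Good F.toFrame g (φ : Fnl A S).f := by
  intro k
  rw [gd, Submodule.mem_comap, LinearMap.mem_range] at hφ
  obtain ⟨c, hc⟩ := hφ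
  have h1 : g * (F.f * (c k : A[X])) = ob F.toFrame g (φ : Fnl A S).f k := congrFun hc k
  rw [← h1, ← mul_assoc]
  exact dvd_mul_right _ _

omit [IsScalarTower K A S] in
theorem finrank_gd (hfd : ∀ d, FiniteDimensional K (G.gr d)) (hθ : th A S ∈ H.gr 1)
    (hg : g.Monic) (hgN : g ∈ (polyGr G).gr N) (hgJ : algebraMap A[X] S g ∈ J)
    (F : HFrame (polyGr G) H r m) :
    finrank K (HH G H J s) + ∑ k, finrank K ((polyGr G).gr (del F s k - F.D)) ≤
      finrank K (gd g F J s) + ∑ k, finrank K ((polyGr G).gr (del F s k)) := by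
  have h1 : ∀ d, FiniteDimensional K ((polyGr G).gr d) := fd_poly hfd
  have h2 : FiniteDimensional K (HH G H J s) := fd_HH hfd hθ hg hgN hgJ F
  have e1 : ∑ k, finrank K ((polyGr G).gr (del F s k - F.D)) =
      finrank K (∀ k, (polyGr G).gr (del F s k - F.D)) := (finrank_pi_fintype K).symm
  have e2 : ∑ k, finrank K ((polyGr G).gr (del F s k)) =
      finrank K (∀ k, (polyGr G).gr (del F s k)) := (finrank_pi_fintype K).symm
  rw [e1, e2, gd]
  refine finrank_comap (obm g F J s) (mulN g G (del F s)) ?_ (mulT F.f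
    (a := fun k => del F s k - F.D) (b := del F s) _) ?_ ?_
  · intro c c' h
    funext k
    exact Subtype.ext (mul_left_cancel₀ hg.ne_zero (congrFun h k))
  · intro c c' h
    funext k
    have h3 := congrArg Subtype.val (congrFun h k)
    exact Subtype.ext (mul_left_cancel₀ F.f_ne h3)
  · intro φ
    have hk := kill_g hgJ φ.2
    choose q hq using fun k => dvd_ob F.toFrame g (φ : Fnl A S).f hk k
    have hqm : ∀ k, q k ∈ (polyGr G).gr (del F s k) := by
      intro k
      refine (polyGr G).mem_of_mul hg.ne_zero hgN ?_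
      rw [← hq]
      exact ob_mem F hθ φ.2 hgN k
    exact ⟨fun k => ⟨q k, hqm k⟩, funext fun k => (hq k).symm⟩

/-! ### the fractions -/

variable (Q : Type*) [Field Q] [Algebra S Q] [IsFractionRing S Q] [Algebra K Q]
  [IsScalarTower K S Q]

/-- the fraction attached to a functional -/
noncomputable def Psi (g : A[X]) (F : HFrame (polyGr G) H r m) (J : Ideal S) (s : ℤ) :
    HH G H J s →ₗ[K] Q where
  toFun φ := algebraMap S Q (yy F.toFrame g (φ : Fnl A S).f) / algebraMap S Q (algebraMap A[X] S g)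
  map_add' := by
    intro φ ψ
    rw [← add_div, ← map_add]
    congr 2
    simp only [yy, Submodule.coe_add, Fnl.f_add, cc_add, add_smul, Finset.sum_add_distrib]
  map_smul' := by
    intro c φ
    have h1 : yy F.toFrame g ((c • φ : HH G H J s) : Fnl A S).f =
        c • yy F.toFrame g (φ : Fnl A S).f := by
      simp only [yy, Submodule.coe_smul, Fnl.f_smul, cc_smulK, Finset.smul_sum]
      refine Finset.sum_congr rfl fun i _ => ?_
      have h2 : c • cc g (φ : Fnl A S).f (F.e i) =
          (algebraMap K A c) • cc g (φ : Fnl A S).f (F.e i) := by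
        rw [algebraMap_smul]
      rw [h2, smul_assoc, algebraMap_smul]
    rw [h1, RingHom.id_apply, Algebra.smul_def c, map_mul, ← IsScalarTower.algebraMap_apply,
      mul_div_assoc, ← Algebra.smul_def]

theorem Psi_apply (φ : HH G H J s) : Psi Q g F J s φ =
    algebraMap S Q (yy F.toFrame g (φ : Fnl A S).f) / algebraMap S Q (algebraMap A[X] S g) := rfl

/-- the shift -/
def shf (F : HFrame (polyGr G) H r m) : ℤ := F.D' - F.L - 1

omit [IsDomain A] [IsDomain S] in
theorem yy_mem (hc : Compat K (polyGr G) H) (hθ : th A S ∈ H.gr 1)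
    (hgN : g ∈ (polyGr G).gr N) {φ : Fnl A S} (hφ : φ ∈ HH G H J s) :
    yy F.toFrame g φ.f ∈ H.gr (N + (s + shf F)) := by
  unfold yy shf
  refine Submodule.sum_mem _ fun i _ => ?_
  have := hc (cc_mem hθ hφ hgN (F.e_mem i)) (F.ep_mem i)
  convert this using 2
  ring

variable (hinj : Function.Injective (algebraMap A[X] S))
include hinj

theorem gS_ne (hg : g.Monic) : algebraMap S Q (algebraMap A[X] S g) ≠ 0 := by
  rw [Ne, FaithfulSMul.algebraMap_eq_zero_iff, map_eq_zero_iff _ hinj]
  exact hg.ne_zero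

variable {F}

/-- from a product in the fraction field to a product in `S` -/
theorem Psi_mul_iff (hg : g.Monic) (φ : HH G H J s) (w u : S) :
    algebraMap S Q w * Psi Q g F J s φ = algebraMap S Q u ↔
      w * yy F.toFrame g (φ : Fnl A S).f = g • u := by
  have h0 := gS_ne Q hinj hg
  rw [Psi_apply, mul_div_assoc', div_eq_iff h0, ← map_mul, ← map_mul,
    (IsFractionRing.injective S Q).eq_iff, Algebra.smul_def, mul_comm u]

theorem Psi_ann (hg : g.Monic) (hgJ : algebraMap A[X] S g ∈ J) {φ : HH G H J s}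
    (hφ : φ ∈ gd g F J s) (w : S) (hw : ∀ x, (φ : Fnl A S).f (w * x) = 0) :
    ∃ u, algebraMap S Q w * Psi Q g F J s φ = algebraMap S Q u := by
  have : Module.IsTorsionFree A[X] S := Module.isTorsionFree_iff_algebraMap_injective.2 hinj
  obtain ⟨u, hu⟩ := (good_of_mem F hφ).dvd_of_ann (kill_g hgJ φ.2) w hw
  exact ⟨u, (Psi_mul_iff Q hinj hg φ w u).2 hu⟩

theorem Psi_den (hg : g.Monic) (hgJ : algebraMap A[X] S g ∈ J) {φ : HH G H J s}
    (hφ : φ ∈ gd g F J s) (w u : S)
    (hw : algebraMap S Q w * Psi Q g F J s φ = algebraMap S Q u) (x : S) :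
    (φ : Fnl A S).f (F.f' • (w * x)) = 0 :=
  (good_of_mem F hφ).ann_of_dvd hg (kill_g hgJ φ.2) w u ((Psi_mul_iff Q hinj hg φ w u).1 hw) x

theorem Psi_inj (hg : g.Monic) (hgJ : algebraMap A[X] S g ∈ J) {φ : HH G H J s}
    (hφ : φ ∈ gd g F J s) (u : S) (h : Psi Q g F J s φ = algebraMap S Q (F.f' • u)) : φ = 0 := by
  have h1 : algebraMap S Q 1 * Psi Q g F J s φ = algebraMap S Q (F.f' • u) := by
    rw [map_one, one_mul, h]
  have h2 := (Psi_mul_iff Q hinj hg φ 1 (F.f' • u)).1 h1
  rw [one_mul] at h2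
  exact Subtype.ext ((good_of_mem F hφ).eq_zero hg (kill_g hgJ φ.2) u h2)

theorem Psi_mem (hc : Compat K (polyGr G) H) (hθ : th A S ∈ H.gr 1) (hg : g.Monic)
    (hgN : g ∈ (polyGr G).gr N) (hgJ : algebraMap A[X] S g ∈ J) {φ : HH G H J s}
    (hφ : φ ∈ gd g F J s) : Psi Q g F J s φ ∈ FF H Q J (s + shf F) := by
  have : Module.IsTorsionFree A[X] S := Module.isTorsionFree_iff_algebraMap_injective.2 hinj
  intro n w hwJ hwn
  obtain ⟨u, hu⟩ := Psi_ann Q hinj hg hgJ hφ w fun x => φ.2.2 _ (J.mul_mem_right _ hwJ)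
  refine ⟨u, ?_, hu⟩
  have h1 := (Psi_mul_iff Q hinj hg φ w u).1 hu
  refine hc.mem_of_smul hg.ne_zero hgN ?_
  rw [← h1]
  have h2 := H.mul_mem hwn (yy_mem F hc hθ hgN φ.2)
  convert h2 using 2
  ring

omit hinj in
/-- `S` is contained in the fractions -/
theorem S_le_FF (J : Ideal S) {d : ℤ} {x : S} (hx : x ∈ H.gr d) :
    algebraMap S Q x ∈ FF H Q J d := by
  intro n w _ hw
  exact ⟨w * x, H.mul_mem hw hx, (map_mul _ _ _).symm⟩

/-- fractions are finite dimensional -/
theorem fd_FF (hfdS : ∀ d, FiniteDimensional K (H.gr d)) (hc : Compat K (polyGr G) H)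
    (hg : g.Monic) (hgN : g ∈ (polyGr G).gr N) (hgJ : algebraMap A[X] S g ∈ J) (d : ℤ) :
    FiniteDimensional K (FF H Q J d) := by
  have hg1 : algebraMap A[X] S g ∈ H.gr N := by
    have := hc hgN H.one_mem
    rwa [Algebra.smul_def, mul_one, add_zero] at this
  choose y hy hy' using fun b : FF H Q J d => b.2 N _ hgJ hg1
  have h0 := gS_ne Q hinj hg
  let T : FF H Q J d →ₗ[K] H.gr (N + d) :=
    { toFun := fun b => ⟨y b, hy b⟩
      map_add' := by
        intro a b
        apply Subtype.ext
        apply IsFractionRing.injective S Q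
        show algebraMap S Q (y (a + b)) = algebraMap S Q (y a + y b)
        rw [map_add, ← hy', ← hy', ← hy', Submodule.coe_add, mul_add]
      map_smul' := by
        intro c a
        apply Subtype.ext
        apply IsFractionRing.injective S Q
        show algebraMap S Q (y (c • a)) = algebraMap S Q (c • y a)
        rw [Algebra.smul_def c (y a), map_mul, ← IsScalarTower.algebraMap_apply, ← hy', ← hy',
          Submodule.coe_smul, mul_smul_comm, Algebra.smul_def] }
  have h1 := hfdS (N + d)
  refine FiniteDimensional.of_injective T ?_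
  intro a b hab
  have h2 : y a = y b := congrArg Subtype.val hab
  apply Subtype.ext
  apply mul_left_cancel₀ h0
  rw [hy', hy', h2]

/-- **Lower bound for the fractions** -/
theorem lower (hfd : ∀ d, FiniteDimensional K (G.gr d))
    (hfdS : ∀ d, FiniteDimensional K (H.gr d)) (hc : Compat K (polyGr G) H)
    (hθ : th A S ∈ H.gr 1) (hg : g.Monic)
    (hgN : g ∈ (polyGr G).gr N) (hgJ : algebraMap A[X] S g ∈ J)
    (F : HFrame (polyGr G) H r m) (s' : ℤ) (hs' : F.D' + s' = s + shf F) :
    finrank K (gd g F J s) + finrank K (H.gr s') ≤ finrank K (FF H Q J (s + shf F)) := by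
  have : Module.IsTorsionFree A[X] S := Module.isTorsionFree_iff_algebraMap_injective.2 hinj
  have h1 : FiniteDimensional K (HH G H J s) := fd_HH hfd hθ hg hgN hgJ F
  have h2 := hfdS s'
  have h3 : FiniteDimensional K (FF H Q J (s + shf F)) := fd_FF Q hinj hfdS hc hg hgN hgJ _
  have hmem : ∀ x : H.gr s', algebraMap S Q (F.f' • (x : S)) ∈ FF H Q J (s + shf F) := by
    intro x
    rw [← hs']
    exact S_le_FF Q J (hc F.f'_mem x.2)
  let T : (gd g F J s) × H.gr s' →ₗ[K] FF H Q J (s + shf F) :=
    { toFun := fun p => ⟨Psi Q g F J s p.1, Psi_mem Q hinj hc hθ hg hgN hgJ p.1.2⟩ +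
        ⟨algebraMap S Q (F.f' • (p.2 : S)), hmem p.2⟩
      map_add' := by
        intro p q
        apply Subtype.ext
        simp only [Prod.fst_add, Prod.snd_add, Submodule.coe_add, map_add, smul_add]
        ring
      map_smul' := by
        intro c p
        apply Subtype.ext
        have e1 : F.f' • (c • (p.2 : S)) = c • (F.f' • (p.2 : S)) := by
          rw [Algebra.smul_def, mul_smul_comm, ← Algebra.smul_def]
        simp only [Prod.smul_fst, Prod.smul_snd, Submodule.coe_add, Submodule.coe_smul, map_smul,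
          RingHom.id_apply, smul_add, e1]
        congr 1
        rw [Algebra.smul_def c (F.f' • (p.2 : S)), map_mul, ← IsScalarTower.algebraMap_apply,
          ← Algebra.smul_def] }
  rw [← finrank_prod]
  refine LinearMap.finrank_le_finrank_of_injective (f := T) ?_
  rw [injective_iff_map_eq_zero]
  rintro ⟨φ, x⟩ hT
  have h4 : Psi Q g F J s φ + algebraMap S Q (F.f' • (x : S)) = 0 := congrArg Subtype.val hT
  have h5 : Psi Q g F J s φ = algebraMap S Q (F.f' • (-(x : S))) := by
    rw [smul_neg, map_neg]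
    exact eq_neg_of_add_eq_zero_left h4
  have h6 := Psi_inj Q hinj hg hgJ φ.2 _ h5
  have h7 : φ = 0 := Subtype.ext h6
  rw [h6, map_zero, zero_add, FaithfulSMul.algebraMap_eq_zero_iff, smul_eq_zero] at h4
  have h8 : (x : S) = 0 := h4.resolve_left F.f'_ne
  rw [h7, Subtype.ext (a1 := x) (a2 := 0) h8]
  rfl

end main

end Pool.Agent.GMD
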