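import Pool.Agent.GMD.Struct

/-!
# GMD: the upper bound for the fractions, and the final inequalities
-/

set_option autoImplicit false

open Polynomial Module

namespace Pool.Agent.GMD

/-- `J` is generated by its homogeneous elements -/
def IsHomG {K S : Type*} [Field K] [CommRing S] [Algebra K S] (H : Gr K S) (J : Ideal S) : Prop :=
  ∀ x ∈ J, x ∈ Ideal.span {y | y ∈ J ∧ ∃ d, y ∈ H.gr d}

section ideals

variable {K S : Type*} [Field K] [CommRing S] [Algebra K S] {H : Gr K S}

theorem IsHomG.pr_mem {J : Ideal S} (hJ : IsHomG H J) (d : ℤ) {x : S} (hx : x ∈ J) :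
    H.pr d x ∈ J := by
  have h1 := hJ x hx
  clear hx
  induction h1 using Submodule.span_induction generalizing d with
  | mem y hy =>
    obtain ⟨hyJ, k, hk⟩ := hy
    by_cases h : k = d
    · rw [← h, H.pr_of_mem hk]
      exact hyJ
    · rw [H.pr_of_ne hk h]
      exact J.zero_mem
  | zero => rw [map_zero]; exact J.zero_mem
  | add x y _ _ hx hy => rw [map_add]; exact J.add_mem (hx d) (hy d)
  | smul a x _ hx =>
    rw [smul_eq_mul]
    induction a using H.induction with
    | hom k a ha =>
      have h2 := H.pr_mul ha (d - k) x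
      rw [sub_add_cancel, mul_comm x] at h2
      rw [h2]
      exact J.mul_mem_right _ (hx _)
    | add a b ha hb => rw [add_mul, map_add]; exact J.add_mem ha hb

end ideals

section

variable {K A S : Type*} [Field K] [CommRing A] [IsDomain A] [Algebra K A] [CommRing S]
  [IsDomain S] [Algebra K S] [Algebra A S] [Algebra A[X] S] [IsScalarTower A A[X] S]
  [IsScalarTower K A S] {G : Gr K A} {H : Gr K S} {J : Ideal S} {s N : ℤ} {g : A[X]}

omit [IsDomain A] in
/-- homogeneous monic polynomials in `J` -/
theorem exists_g [Nontrivial A] (hc : Compat K (polyGr G) H) (hJ : IsHomG H J)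
    (h : ∃ p : A[X], p.Monic ∧ algebraMap A[X] S p ∈ J) :
    ∃ (N : ℕ) (g : A[X]), g.Monic ∧ g.natDegree = N ∧ g ∈ (polyGr G).gr N ∧
      algebraMap A[X] S g ∈ J := by
  obtain ⟨p, hp, hpJ⟩ := h
  refine ⟨p.natDegree, zproj G p.natDegree p, ?_, ?_, (polyGr G).pr_mem _ _, ?_⟩
  · have h1 : (zproj G p.natDegree p).coeff p.natDegree = 1 := by
      rw [coeff_zproj, sub_self, hp.coeff_natDegree, G.pr_of_mem G.one_mem]
    refine monic_of_natDegree_le_of_coeff_eq_one p.natDegree ?_ h1
    rw [natDegree_le_iff_coeff_eq_zero]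
    intro i hi
    rw [coeff_zproj]
    exact G.neg (by omega) (G.pr_mem _ _)
  · have h1 : (zproj G p.natDegree p).coeff p.natDegree = 1 := by
      rw [coeff_zproj, sub_self, hp.coeff_natDegree, G.pr_of_mem G.one_mem]
    apply le_antisymm
    · rw [natDegree_le_iff_coeff_eq_zero]
      intro i hi
      rw [coeff_zproj]
      exact G.neg (by omega) (G.pr_mem _ _)
    · exact le_natDegree_of_ne_zero (by rw [h1]; exact one_ne_zero)
  · have h1 := hc.pr_smul H.one_mem (p.natDegree : ℤ) p
    rw [Algebra.smul_def, mul_one, add_zero, Algebra.smul_def, mul_one] at h1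
    show algebraMap A[X] S ((polyGr G).pr p.natDegree p) ∈ J
    rw [← h1]
    exact hJ.pr_mem _ hpJ

/-- remainders of forms are forms -/
theorem mod_mem (hg : g.Monic) (hgN : g ∈ (polyGr G).gr N) {p : A[X]} {d : ℤ}
    (hp : p ∈ (polyGr G).gr d) : p %ₘ g ∈ (polyGr G).gr d := by
  have h1 : (polyGr G).pr d (p %ₘ g) + g * (polyGr G).pr (d - N) (p /ₘ g) = p := by
    have h2 := congrArg ((polyGr G).pr d) (modByMonic_add_div p g)
    rw [map_add, (polyGr G).pr_of_mem hp] at h2
    have h3 := (polyGr G).pr_mul hgN (d - N) (p /ₘ g)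
    rw [sub_add_cancel, mul_comm] at h3
    rw [h3, mul_comm _ g] at h2
    exact h2
  have h4 : ((polyGr G).pr d (p %ₘ g)).degree < g.degree := by
    rw [degree_eq_natDegree hg.ne_zero, degree_lt_iff_coeff_zero]
    intro i hi
    show (zproj G d (p %ₘ g)).coeff i = 0
    rw [coeff_zproj]
    have h5 := degree_modByMonic_lt p hg
    rw [degree_eq_natDegree hg.ne_zero, degree_lt_iff_coeff_zero] at h5
    rw [h5 i hi, map_zero]
  have h6 := (div_modByMonic_unique _ _ hg ⟨h1, h4⟩).2
  rw [h6]
  exact (polyGr G).pr_mem _ _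

variable {r m : ℕ} (Q : Type*) [Field Q] [Algebra S Q] [IsFractionRing S Q] [Algebra K Q]
  [IsScalarTower K S Q] (hinj : Function.Injective (algebraMap A[X] S))
include hinj

/-- **Upper bound for the fractions** -/
theorem upper (hfd : ∀ d, FiniteDimensional K (G.gr d))
    (hfdS : ∀ d, FiniteDimensional K (H.gr d)) (hc : Compat K (polyGr G) H)
    (hθ : th A S ∈ H.gr 1) (hJ : IsHomG H J) {N : ℕ} (hg : g.Monic) (hdeg : g.natDegree = N)
    (hgN : g ∈ (polyGr G).gr N) (hgJ : algebraMap A[X] S g ∈ J)
    (F : HFrame (polyGr G) H r m) (d : ℤ) :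
    finrank K (FF H Q J d) ≤ finrank K (H.gr (d + F.D')) +
      finrank K (HH G H J (d + F.L + 1)) := by
  have : Module.IsTorsionFree A[X] S := Module.isTorsionFree_iff_algebraMap_injective.2 hinj
  have h1 : FiniteDimensional K (HH G H J (d + F.L + 1)) := fd_HH hfd hθ hg hgN hgJ F
  have h2 := hfdS (d + F.D')
  have h3 : FiniteDimensional K (FF H Q J d) := fd_FF Q hinj hfdS hc hg hgN hgJ _
  have h0 := gS_ne Q hinj hg
  have hg1 : algebraMap A[X] S g ∈ H.gr N := by
    have := hc hgN H.one_mem
    rwa [Algebra.smul_def, mul_one, add_zero] at this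
  choose y hy hy' using fun b : FF H Q J d => b.2 N _ hgJ hg1
  have hadd : ∀ a b, y (a + b) = y a + y b := by
    intro a b
    apply IsFractionRing.injective S Q
    rw [map_add, ← hy', ← hy', ← hy', Submodule.coe_add, mul_add]
  have hsmul : ∀ (c : K) a, y (c • a) = c • y a := by
    intro c a
    apply IsFractionRing.injective S Q
    rw [Algebra.smul_def c (y a), map_mul, ← IsScalarTower.algebraMap_apply, ← hy', ← hy',
      Submodule.coe_smul, mul_smul_comm, Algebra.smul_def]
  -- all elements of `J` are denominators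
  have hden : ∀ (b : FF H Q J d) (w : S), w ∈ J → ∃ u, w * y b = g • u := by
    intro b w hw
    have h4 := hJ w hw
    clear hw
    induction h4 using Submodule.span_induction with
    | mem w hw =>
      obtain ⟨hwJ, k, hk⟩ := hw
      obtain ⟨u, _, hu⟩ := b.2 k w hwJ hk
      refine ⟨u, ?_⟩
      apply IsFractionRing.injective S Q
      rw [Algebra.smul_def, map_mul, map_mul, ← hy', ← hu]
      ring
    | zero => exact ⟨0, by rw [zero_mul, smul_zero]⟩
    | add x x' _ _ hx hx' =>
      obtain ⟨u, hu⟩ := hx
      obtain ⟨u', hu'⟩ := hx'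
      exact ⟨u + u', by rw [add_mul, hu, hu', smul_add]⟩
    | smul a x _ hx =>
      obtain ⟨u, hu⟩ := hx
      exact ⟨a * u, by rw [smul_eq_mul, mul_assoc, hu, mul_smul_comm]⟩
  have hmem : ∀ b : FF H Q J d, (psi F.toFrame g (y b) : Fnl A S) ∈ HH G H J (d + F.L + 1) := by
    intro b
    refine ⟨fun n x hx => ?_, fun w hw => ?_⟩
    · show (F.lam (y b * x) %ₘ g).coeff (g.natDegree - 1) ∈ _
      rcases Nat.eq_zero_or_pos N with hN | hN
      · have : g = 1 := hg.natDegree_eq_zero.1 (by rw [hdeg, hN])
        rw [this, modByMonic_one, coeff_zero]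
        exact Submodule.zero_mem _
      · have h5 := mod_mem hg hgN (F.lam_mem (H.mul_mem (hy b) hx))
        have h6 := h5 (g.natDegree - 1)
        have h7 : (N : ℤ) + d + n + F.L - ((g.natDegree - 1 : ℕ) : ℤ) = n + (d + F.L + 1) := by
          rw [hdeg, Nat.cast_sub hN]
          push_cast
          ring
        rwa [h7] at h6
    · obtain ⟨u, hu⟩ := hden b w hw
      have := psi_kill F.toFrame g hg (y b) w u hu 1
      rwa [mul_one] at this
  let T : FF H Q J d →ₗ[K] HH G H J (d + F.L + 1) :=
    { toFun := fun b => ⟨psi F.toFrame g (y b), hmem b⟩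
      map_add' := by
        intro a b
        apply Subtype.ext
        show psi F.toFrame g (y (a + b)) = psi F.toFrame g (y a) + psi F.toFrame g (y b)
        rw [hadd, psi_add]
      map_smul' := by
        intro c a
        apply Subtype.ext
        refine LinearMap.ext fun x => ?_
        show psi F.toFrame g (y (c • a)) x = c • psi F.toFrame g (y a) x
        rw [hsmul, ← algebraMap_smul A c (y a), psi_smul, LinearMap.smul_apply, smul_eq_mul,
          ← Algebra.smul_def] }
  have hker : ∀ b : LinearMap.ker T, ∃ u, F.f' • y b = g • u := by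
    intro b
    have h8 : psi F.toFrame g (y b) = 0 := congrArg Subtype.val b.2
    exact psi_injective F.toFrame g hg (y b) h8
  choose u hu using hker
  have hum : ∀ b, u b ∈ H.gr (d + F.D') := by
    intro b
    refine hc.mem_of_smul hg.ne_zero hgN ?_
    rw [← hu]
    have h9 := hc F.f'_mem (hy b)
    convert h9 using 2
    ring
  have hgne : ∀ a b : S, g • a = g • b → a = b := fun a b h => smul_right_injective S hg.ne_zero h
  let T2 : LinearMap.ker T →ₗ[K] H.gr (d + F.D') :=
    { toFun := fun b => ⟨u b, hum b⟩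
      map_add' := by
        intro a b
        apply Subtype.ext
        show u (a + b) = u a + u b
        apply hgne
        rw [smul_add, ← hu, ← hu, ← hu, Submodule.coe_add, hadd, smul_add]
      map_smul' := by
        intro c a
        apply Subtype.ext
        show u (c • a) = c • u a
        apply hgne
        have e1 : ∀ (p : A[X]) (x : S), p • (c • x) = c • (p • x) := by
          intro p x
          rw [Algebra.smul_def, mul_smul_comm, ← Algebra.smul_def]
        rw [e1, ← hu, ← hu, Submodule.coe_smul, hsmul, e1] }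
  have h10 : Function.Injective T2 := by
    intro a b hab
    have h11 : u a = u b := congrArg Subtype.val hab
    have h12 : F.f' • y a = F.f' • y b := by rw [hu, hu, h11]
    have h13 : y a = y b := smul_right_injective S F.f'_ne h12
    apply Subtype.ext
    apply Subtype.ext
    apply mul_left_cancel₀ h0
    rw [hy', hy', h13]
  have h14 := LinearMap.finrank_le_finrank_of_injective h10
  have h15 := LinearMap.finrank_range_add_finrank_ker T
  have h16 := Submodule.finrank_le (LinearMap.range T)
  omega

end

end Pool.Agent.GMD
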